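import Pool.Agent.Helper80.SI.Defs

/-!
# SI: matrix algebra

`W` is conformally symplectic with the factor `m`: `J W + Wᵀ J = m J`; `B` is symplectic,
`M = 1 + W (B - 1)` and `N = M + (1 - m) (B - 1)`. Then `Nᵀ J N = Mᵀ J M`.
-/

set_option autoImplicit false

open Matrix

namespace Pool.Agent.Helper80.SI

variable {n : ℕ}

/-- The matrix `M = 1 + W (B - 1)`. -/
noncomputable def MM (W B : Mt n) : Mt n := 1 + W * (B - 1)

/-- The matrix `N = M + (1 - m) (B - 1)`. -/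
noncomputable def NN (W B : Mt n) (m : ℝ) : Mt n := MM W B + (1 - m) • (B - 1)

theorem NN_symp {W B : Mt n} {m : ℝ} (hW : J (Fin n) ℝ * W + Wᵀ * J (Fin n) ℝ = m • J (Fin n) ℝ)
    (hB : B ∈ symplecticGroup (Fin n) ℝ) :
    (NN W B m)ᵀ * J (Fin n) ℝ * NN W B m = (MM W B)ᵀ * J (Fin n) ℝ * MM W B := by
  have h2 : Bᵀ * J (Fin n) ℝ * B = J (Fin n) ℝ := SymplecticGroup.mem_iff'.1 hB
  set C := B - 1 with hC
  have hB' : B = C + 1 := by rw [hC, sub_add_cancel]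
  have h3 : Cᵀ * J (Fin n) ℝ + J (Fin n) ℝ * C + Cᵀ * J (Fin n) ℝ * C = 0 := by
    rw [hB', transpose_add, transpose_one] at h2
    have : (Cᵀ + 1) * J (Fin n) ℝ * (C + 1) = Cᵀ * J (Fin n) ℝ + J (Fin n) ℝ * C +
      Cᵀ * J (Fin n) ℝ * C + J (Fin n) ℝ := by noncomm_ring
    rw [this] at h2
    exact add_eq_right.1 h2
  have h4 : Cᵀ * (J (Fin n) ℝ * W) * C + Cᵀ * (Wᵀ * J (Fin n) ℝ) * C =
      m • (Cᵀ * J (Fin n) ℝ * C) := by
    rw [← add_mul, ← mul_add, hW, mul_smul_comm, smul_mul_assoc]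
  have h5 : NN W B m = MM W B + (1 - m) • C := rfl
  have h6 : MM W B = 1 + W * C := rfl
  have h7 : (NN W B m)ᵀ * J (Fin n) ℝ * NN W B m - (MM W B)ᵀ * J (Fin n) ℝ * MM W B =
      (1 - m) • (Cᵀ * J (Fin n) ℝ + J (Fin n) ℝ * C +
        (Cᵀ * (J (Fin n) ℝ * W) * C + Cᵀ * (Wᵀ * J (Fin n) ℝ) * C)) +
      ((1 - m) * (1 - m)) • (Cᵀ * J (Fin n) ℝ * C) := by
    rw [h5, h6]
    simp only [transpose_add, transpose_one, transpose_smul, transpose_mul, add_mul, mul_add,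
      smul_mul_assoc, mul_smul_comm, one_mul, mul_one, smul_add, smul_smul, mul_assoc]
    module
  rw [h4] at h7
  have h8 : (1 - m) • (Cᵀ * J (Fin n) ℝ + J (Fin n) ℝ * C + m • (Cᵀ * J (Fin n) ℝ * C)) +
      ((1 - m) * (1 - m)) • (Cᵀ * J (Fin n) ℝ * C) =
      (1 - m) • (Cᵀ * J (Fin n) ℝ + J (Fin n) ℝ * C + Cᵀ * J (Fin n) ℝ * C) := by module
  rw [h8, h3, smul_zero] at h7
  exact sub_eq_zero.1 h7

theorem NN_det {W B : Mt n} {m : ℝ} (hW : J (Fin n) ℝ * W + Wᵀ * J (Fin n) ℝ = m • J (Fin n) ℝ)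
    (hB : B ∈ symplecticGroup (Fin n) ℝ) (h : (MM W B).det ≠ 0) : (NN W B m).det ≠ 0 := by
  intro h1
  have h2 := congrArg det (NN_symp hW hB)
  rw [det_mul, h1, mul_zero, det_mul, det_mul, det_transpose] at h2
  have h3 := (isUnit_det_J (Fin n) ℝ).ne_zero
  exact mul_ne_zero (mul_ne_zero h h3) h h2.symm

theorem NM_symp {W B : Mt n} {m : ℝ} (hW : J (Fin n) ℝ * W + Wᵀ * J (Fin n) ℝ = m • J (Fin n) ℝ)
    (hB : B ∈ symplecticGroup (Fin n) ℝ) (h : (MM W B).det ≠ 0) :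
    NN W B m * (MM W B)⁻¹ ∈ symplecticGroup (Fin n) ℝ := by
  rw [SymplecticGroup.mem_iff', transpose_mul]
  have hu : IsUnit (MM W B).det := isUnit_iff_ne_zero.2 h
  have h3 : ((MM W B)⁻¹)ᵀ * (MM W B)ᵀ = 1 := by
    rw [← transpose_mul, mul_nonsing_inv _ hu, transpose_one]
  have h4 : MM W B * (MM W B)⁻¹ = 1 := mul_nonsing_inv _ hu
  calc ((MM W B)⁻¹)ᵀ * (NN W B m)ᵀ * J (Fin n) ℝ * (NN W B m * (MM W B)⁻¹)
      = ((MM W B)⁻¹)ᵀ * ((NN W B m)ᵀ * J (Fin n) ℝ * NN W B m) * (MM W B)⁻¹ := by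
        noncomm_ring
    _ = ((MM W B)⁻¹)ᵀ * (MM W B)ᵀ * J (Fin n) ℝ * (MM W B * (MM W B)⁻¹) := by
        rw [NN_symp hW hB]
        noncomm_ring
    _ = J (Fin n) ℝ := by rw [h3, h4, mul_one, one_mul]

end Pool.Agent.Helper80.SI
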