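import Pool.Agent.Helper80.SI.Near

/-!
# SI: isotopies are chains of near pairs
-/

set_option autoImplicit false

open scoped ContDiff Topology
open Matrix

namespace Pool.Agent.Helper80.SI

variable {n : ℕ} {A : Matrix (Fin n ⊕ Fin n) (Fin n ⊕ Fin n) ℤ} {F G : E n → E n}

/-- The operator norm is at most the Frobenius norm. -/
theorem sq_mulVec_le (M : Mt n) (v : E n) :
    sq (M.mulVec v) ≤ (∑ i, ∑ j, M i j ^ 2) * sq v := by
  have h1 : sq (M.mulVec v) = ∑ i, (∑ j, M i j * v j) ^ 2 := by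
    unfold sq dotProduct
    refine Finset.sum_congr rfl fun i _ => ?_
    rw [pow_two]
    rfl
  have h2 : sq v = ∑ j, v j ^ 2 := by
    unfold sq dotProduct
    exact Finset.sum_congr rfl fun i _ => (pow_two (v i)).symm
  rw [h1, h2, Finset.sum_mul]
  exact Finset.sum_le_sum fun i _ => Finset.sum_mul_sq_le_sq_mul_sq _ _ _

/-- The relative distance, as a continuous function. -/
noncomputable def phi (P : ℝ → E n → E n) (p : (ℝ × ℝ) × E n) : ℝ :=
  ∑ i, ∑ j, (DD (P p.1.1) p.2 * (-J (Fin n) ℝ * (DD (P p.1.2) p.2)ᵀ * J (Fin n) ℝ) - 1) i j ^ 2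

theorem continuous_phi {P : ℝ → E n → E n}
    (hP : ContDiff ℝ ∞ (fun p : ℝ × E n => P p.1 p.2)) : Continuous (phi P) := by
  have h1 := continuous_DD hP
  have h2 : Continuous (fun p : (ℝ × ℝ) × E n => DD (P p.1.1) p.2) :=
    h1.comp ((continuous_fst.comp continuous_fst).prodMk continuous_snd)
  have h3 : Continuous (fun p : (ℝ × ℝ) × E n => DD (P p.1.2) p.2) :=
    h1.comp ((continuous_snd.comp continuous_fst).prodMk continuous_snd)
  have h4 : Continuous (fun p : (ℝ × ℝ) × E n => DD (P p.1.1) p.2 *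
      (-J (Fin n) ℝ * (DD (P p.1.2) p.2)ᵀ * J (Fin n) ℝ) - 1) :=
    (h2.matrix_mul ((continuous_const.matrix_mul h3.matrix_transpose).matrix_mul
      continuous_const)).sub continuous_const
  unfold phi
  exact continuous_finsetSum _ fun i _ => continuous_finsetSum _ fun j _ =>
    (h4.matrix_elem i j).pow 2

theorem chain_of_isotopic {ε : ℝ} (hε : 0 < ε) (h : Isotopic n A F G) :
    Relation.TransGen (Close n A ε) F G := by
  have hε2 : 0 < ε ^ 2 := by positivity
  obtain ⟨P, hP, hP0, hP1, hPS⟩ := h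
  have hinv : ∀ t ∈ Set.Icc (0 : ℝ) 1, ∀ x,
      -J (Fin n) ℝ * (DD (P t) x)ᵀ * J (Fin n) ℝ = (DD (P t) x)⁻¹ := fun t ht x =>
    (SymplecticGroup.inv_eq_symplectic_inv _ ((hPS t ht).symp x)).symm
  have hphi0 : ∀ t ∈ Set.Icc (0 : ℝ) 1, ∀ x, phi P ((t, t), x) = 0 := by
    intro t ht x
    have h1 : DD (P t) x * (-J (Fin n) ℝ * (DD (P t) x)ᵀ * J (Fin n) ℝ) - 1 = 0 := by
      rw [hinv t ht x, mul_nonsing_inv _ (SymplecticGroup.symplectic_det ((hPS t ht).symp x)),
        sub_self]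
    unfold phi
    simp only [h1]
    simp
  have hK : IsCompact ((Set.Icc (0 : ℝ) 1 ×ˢ Set.Icc (0 : ℝ) 1) ×ˢ cube n) :=
    (isCompact_Icc.prod isCompact_Icc).prod isCompact_cube
  have hu := hK.uniformContinuousOn_of_continuous (continuous_phi hP).continuousOn
  rw [Metric.uniformContinuousOn_iff] at hu
  obtain ⟨δ, hδ, hu⟩ := hu (ε ^ 2) hε2
  have hnear : ∀ t ∈ Set.Icc (0 : ℝ) 1, ∀ t' ∈ Set.Icc (0 : ℝ) 1, |t - t'| < δ →
      Close n A ε (P t) (P t') := by
    intro t ht t' ht' htt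
    refine ⟨hPS t ht, hPS t' ht', fun x v hv => ?_⟩
    obtain ⟨k, hk⟩ := exists_red x
    have h1 : phi P ((t, t'), x + lat k) < ε ^ 2 := by
      have h2 := hu ((t, t'), x + lat k) ⟨⟨ht, ht'⟩, hk⟩ ((t, t), x + lat k) ⟨⟨ht, ht⟩, hk⟩ (by
        rw [Prod.dist_eq, Prod.dist_eq]
        simp only [dist_self]
        rw [max_lt_iff, max_lt_iff]
        refine ⟨⟨hδ, ?_⟩, hδ⟩
        rw [dist_comm, Real.dist_eq]
        exact htt)
      rw [hphi0 t ht, Real.dist_eq, sub_zero] at h2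
      exact lt_of_le_of_lt (le_abs_self _) h2
    have h3 : phi P ((t, t'), x + lat k) =
        ∑ i, ∑ j, (DD (P t) x * (DD (P t') x)⁻¹ - 1) i j ^ 2 := by
      unfold phi
      simp only
      rw [hinv t' ht', DD_per (hPS t ht), DD_per (hPS t' ht')]
    rw [h3] at h1
    exact lt_of_le_of_lt (sq_mulVec_le _ v) (mul_lt_mul_of_pos_right h1 (sq_pos hv))
  obtain ⟨N, hN⟩ := exists_nat_one_div_lt hδ
  have hmem : ∀ k : ℕ, k ≤ N + 1 → ((k : ℝ) / (N + 1)) ∈ Set.Icc (0 : ℝ) 1 := by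
    intro k hk
    refine ⟨by positivity, ?_⟩
    rw [div_le_one (by positivity)]
    exact_mod_cast hk
  have hstep : ∀ k : ℕ, k + 1 ≤ N + 1 →
      Close n A ε (P ((k : ℝ) / (N + 1))) (P (((k + 1 : ℕ) : ℝ) / (N + 1))) := by
    intro k hk
    refine hnear _ (hmem k (by omega)) _ (hmem (k + 1) hk) ?_
    have h1 : (k : ℝ) / (N + 1) - ((k + 1 : ℕ) : ℝ) / (N + 1) = -(1 / ((N : ℝ) + 1)) := by
      push_cast
      ring
    rw [h1, abs_neg, abs_of_pos (by positivity)]
    exact hN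
  have hchain : ∀ k : ℕ, k + 1 ≤ N + 1 →
      Relation.TransGen (Close n A ε) (P 0) (P (((k + 1 : ℕ) : ℝ) / (N + 1))) := by
    intro k
    induction k with
    | zero =>
      intro hk
      have h1 := hstep 0 hk
      rw [Nat.cast_zero, zero_div] at h1
      exact Relation.TransGen.single h1
    | succ k ih =>
      intro hk
      exact (ih (by omega)).tail (hstep (k + 1) hk)
  have h1 := hchain N le_rfl
  have h2 : ((N + 1 : ℕ) : ℝ) / (N + 1) = 1 := by
    push_cast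
    exact div_self (by positivity)
  rw [h2, hP0, hP1] at h1
  exact h1

end Pool.Agent.Helper80.SI
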