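import Pool.Agent.Helper80.SI.Defs

/-!
# SI: compositions and inverses of lifts
-/

set_option autoImplicit false

open scoped ContDiff Topology

namespace Pool.Agent.Helper80.SI

variable {n : ℕ}

theorem mulVec_DD (F : E n → E n) (x v : E n) : (DD F x).mulVec v = fderiv ℝ F x v := by
  unfold DD
  rw [LinearMap.toMatrix'_mulVec]
  rfl

theorem DD_eq {F : E n → E n} {x : E n} {M : Mt n}
    (h : HasFDerivAt F (LinearMap.toContinuousLinearMap (Matrix.toLin' M) : E n →L[ℝ] E n) x) :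
    DD F x = M := by
  unfold DD
  rw [h.fderiv]
  have h1 : ((LinearMap.toContinuousLinearMap (Matrix.toLin' M) : E n →L[ℝ] E n) : E n →ₗ[ℝ] E n)
      = Matrix.toLin' M := by
    ext v : 1
    rfl
  rw [h1, LinearMap.toMatrix'_toLin']

theorem hasFDerivAt_DD {F : E n → E n} {x : E n} (h : DifferentiableAt ℝ F x) :
    HasFDerivAt F (LinearMap.toContinuousLinearMap (Matrix.toLin' (DD F x)) : E n →L[ℝ] E n) x := by
  have h1 : (LinearMap.toContinuousLinearMap (Matrix.toLin' (DD F x)) : E n →L[ℝ] E n) =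
      fderiv ℝ F x := by
    ext1 v
    rw [LinearMap.coe_toContinuousLinearMap', Matrix.toLin'_apply, mulVec_DD]
  rw [h1]
  exact h.hasFDerivAt

theorem DD_comp {F G : E n → E n} {x : E n} (hF : DifferentiableAt ℝ F (G x))
    (hG : DifferentiableAt ℝ G x) : DD (fun y => F (G y)) x = DD F (G x) * DD G x := by
  have h1 := (hasFDerivAt_DD hF).comp x (hasFDerivAt_DD hG)
  refine DD_eq ?_
  have h2 : (LinearMap.toContinuousLinearMap (Matrix.toLin' (DD F (G x) * DD G x)) :
      E n →L[ℝ] E n) = (LinearMap.toContinuousLinearMap (Matrix.toLin' (DD F (G x))) :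
      E n →L[ℝ] E n).comp
      (LinearMap.toContinuousLinearMap (Matrix.toLin' (DD G x)) : E n →L[ℝ] E n) := by
    rw [Matrix.toLin'_mul]
    rfl
  rw [h2]
  exact h1

theorem DD_id (x : E n) : DD (fun y : E n => y) x = 1 := by
  refine DD_eq ?_
  have h1 : (LinearMap.toContinuousLinearMap (Matrix.toLin' (1 : Mt n)) : E n →L[ℝ] E n) =
      ContinuousLinearMap.id ℝ (E n) := by
    ext1 v
    rw [LinearMap.coe_toContinuousLinearMap', Matrix.toLin'_one]
    rfl
  rw [h1]
  exact hasFDerivAt_id x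

theorem SympLift.diff {A : Matrix (Fin n ⊕ Fin n) (Fin n ⊕ Fin n) ℤ} {F : E n → E n}
    (h : SympLift n A F) (x : E n) : DifferentiableAt ℝ F x :=
  h.smooth.contDiffAt.differentiableAt (by simp)

theorem SympLift.comp {A B : Matrix (Fin n ⊕ Fin n) (Fin n ⊕ Fin n) ℤ} {F G : E n → E n}
    (hF : SympLift n A F) (hG : SympLift n B G) : SympLift n (A * B) (fun x => F (G x)) := by
  obtain ⟨H, hH, hl, hr⟩ := hF.inv
  obtain ⟨K, hK, hl', hr'⟩ := hG.inv
  refine ⟨?_, hF.smooth.comp hG.smooth, ⟨fun x => K (H x), hK.comp hH, ?_, ?_⟩, ?_, ?_⟩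
  · rw [Matrix.det_mul]
    exact hF.unit.mul hG.unit
  · intro x
    show K (H (F (G x))) = x
    rw [hl, hl']
  · intro x
    show F (G (K (H x))) = x
    rw [hr', hr]
  · intro x k
    show F (G (x + lat k)) = F (G x) + lat ((A * B).mulVec k)
    rw [hG.equi, hF.equi, Matrix.mulVec_mulVec]
  · intro x
    rw [DD_comp (hF.diff _) (hG.diff _)]
    exact mul_mem (hF.symp _) (hG.symp _)

theorem sympLift_id : SympLift n 1 (fun x : E n => x) := by
  refine ⟨by simp, contDiff_id, ⟨fun x => x, contDiff_id, fun x => rfl, fun x => rfl⟩, ?_, ?_⟩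
  · intro x k
    rw [Matrix.one_mulVec]
  · intro x
    rw [DD_id]
    exact one_mem _

/-- The inverse of a lift. -/
theorem SympLift.exists_inv {A : Matrix (Fin n ⊕ Fin n) (Fin n ⊕ Fin n) ℤ} {F : E n → E n}
    (hF : SympLift n A F) : ∃ H : E n → E n, SympLift n A⁻¹ H ∧ (∀ x, H (F x) = x) ∧
      (∀ x, F (H x) = x) ∧ ∀ x, DD H (F x) = (DD F x)⁻¹ := by
  obtain ⟨H, hH, hl, hr⟩ := hF.inv
  have hd : ∀ x, DifferentiableAt ℝ H x := fun x => hH.contDiffAt.differentiableAt (by simp)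
  have h1 : ∀ x, DD H (F x) * DD F x = 1 := by
    intro x
    rw [← DD_comp (hd _) (hF.diff _)]
    have : (fun y => H (F y)) = fun y => y := funext hl
    rw [this, DD_id]
  have h2 : ∀ x, DD H (F x) = (DD F x)⁻¹ := fun x => (Matrix.inv_eq_left_inv (h1 x)).symm
  refine ⟨H, ⟨?_, hH, ⟨F, hF.smooth, hr, hl⟩, ?_, ?_⟩, hl, hr, h2⟩
  · rw [Matrix.det_nonsing_inv]
    exact hF.unit.ringInverse
  · intro x k
    have h3 := hF.equi (H x) (A⁻¹.mulVec k)
    rw [hr, Matrix.mulVec_mulVec, Matrix.mul_nonsing_inv _ hF.unit, Matrix.one_mulVec] at h3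
    rw [← h3, hl]
  · intro x
    have h3 := h2 (H x)
    rw [hr] at h3
    rw [h3, ← SymplecticGroup.coe_inv' ⟨DD F (H x), hF.symp (H x)⟩]
    exact Subtype.coe_prop _

end Pool.Agent.Helper80.SI
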