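import Pool.Agent.Helper80.SI.Defs

/-!
# SI: the metric criterion implies the determinant criterion
-/

set_option autoImplicit false

open Matrix

namespace Pool.Agent.Helper80.SI

variable {n : ℕ}

theorem sq_nonneg' (v : E n) : 0 ≤ sq v := by
  unfold sq dotProduct
  exact Finset.sum_nonneg fun i _ => mul_self_nonneg _

theorem sq_pos {v : E n} (h : v ≠ 0) : 0 < sq v := by
  refine lt_of_le_of_ne (sq_nonneg' v) fun h1 => h ?_
  exact dotProduct_self_eq_zero.1 h1.symm

theorem sq_smul (c : ℝ) (v : E n) : sq (c • v) = c ^ 2 * sq v := by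
  unfold sq
  rw [smul_dotProduct, dotProduct_smul, smul_eq_mul, smul_eq_mul]
  ring

theorem sq_add (v w : E n) : sq (v + w) = sq v + 2 * (v ⬝ᵥ w) + sq w := by
  unfold sq
  rw [add_dotProduct, dotProduct_add, dotProduct_add, dotProduct_comm w v]
  ring

theorem sq_neg (v : E n) : sq (-v) = sq v := by
  unfold sq
  rw [neg_dotProduct_neg]

theorem sq_orth {U : Mt n} (hO : Uᵀ * U = 1) (v : E n) : sq (U.mulVec v) = sq v := by
  unfold sq
  rw [dotProduct_mulVec, vecMul_mulVec, hO, vecMul_one]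

/-- The kernel vector argument. -/
theorem det_ne_zero_of_near {C U : Mt n} (hO : Uᵀ * U = 1)
    (h : ∀ v, v ≠ 0 → sq ((C - U).mulVec v) < 4 * sq v) {t : ℝ} (ht : 0 ≤ t) :
    (C + U + t • (1 + U)).det ≠ 0 := by
  intro h0
  obtain ⟨x, hx, hx0⟩ := exists_mulVec_eq_zero_iff.2 h0
  have h1 := h x hx
  have h2 : (C - U).mulVec x = -((2 : ℝ) • U.mulVec x + t • (x + U.mulVec x)) := by
    rw [add_mulVec, add_mulVec, smul_mulVec, add_mulVec, one_mulVec] at hx0
    rw [sub_mulVec, eq_neg_iff_add_eq_zero, ← hx0]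
    module
  rw [h2, sq_neg, sq_add, sq_smul, sq_smul, sq_orth hO, smul_dotProduct, dotProduct_smul,
    dotProduct_add] at h1
  have h3 : U.mulVec x ⬝ᵥ U.mulVec x = sq x := sq_orth hO x
  have h4 : 0 ≤ sq (x + U.mulVec x) := sq_nonneg' _
  have h5 : sq (x + U.mulVec x) = 2 * (U.mulVec x ⬝ᵥ x + sq x) := by
    rw [sq_add, sq_orth hO, dotProduct_comm x]
    ring
  rw [h3, smul_eq_mul, smul_eq_mul] at h1
  nlinarith [mul_nonneg ht h4, mul_nonneg (pow_nonneg ht 2) h4]

end Pool.Agent.Helper80.SI
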