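import Pool.Agent.Helper80.SI.Defs

/-!
# SI: reduction modulo the lattice
-/

set_option autoImplicit false

open scoped ContDiff Topology

namespace Pool.Agent.Helper80.SI

variable {n : ℕ}

/-- The unit cube. -/
def cube (n : ℕ) : Set (E n) := Set.pi Set.univ fun _ => Set.Icc 0 1

theorem isCompact_cube : IsCompact (cube n) := isCompact_univ_pi fun _ => isCompact_Icc

theorem exists_red (x : E n) : ∃ k : Fin n ⊕ Fin n → ℤ, x + lat k ∈ cube n := by
  refine ⟨fun i => -⌊x i⌋, fun i _ => ?_⟩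
  have h1 : (x + lat fun i => -⌊x i⌋) i = Int.fract (x i) := by
    simp only [lat, Pi.add_apply, Int.cast_neg, Int.fract]
    ring
  rw [h1]
  exact ⟨Int.fract_nonneg _, (Int.fract_lt_one _).le⟩

theorem lat_add (k l : Fin n ⊕ Fin n → ℤ) : (lat (k + l) : E n) = lat k + lat l := by
  funext i
  simp [lat]

theorem lat_neg (k : Fin n ⊕ Fin n → ℤ) : (lat (-k) : E n) = -lat k := by
  funext i
  simp [lat]

theorem lat_zero : (lat 0 : E n) = 0 := by
  funext i
  simp [lat]

/-- A continuous family of periodic functions is bounded. -/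
theorem exists_bound {h : ℝ × E n → E n} (hc : Continuous h)
    (hp : ∀ s x k, h (s, x + lat k) = h (s, x)) :
    ∃ C : ℝ, ∀ s ∈ Set.Icc (0 : ℝ) 1, ∀ x, ‖h (s, x)‖ ≤ C := by
  have hK : IsCompact (Set.Icc (0 : ℝ) 1 ×ˢ cube n) := isCompact_Icc.prod isCompact_cube
  obtain ⟨C, hC⟩ := hK.exists_bound_of_continuousOn hc.continuousOn
  refine ⟨C, fun s hs x => ?_⟩
  obtain ⟨k, hk⟩ := exists_red x
  rw [← hp s x k]
  exact hC (s, x + lat k) ⟨hs, hk⟩

end Pool.Agent.Helper80.SI
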