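import Pool.Agent.Helper80.SI.Comp
import Pool.Agent.Helper80.SI.Per
import Pool.Agent.Helper80.SI.Norm

/-!
# SI: continuity, periodicity, compactness
-/

set_option autoImplicit false

open scoped ContDiff Topology

namespace Pool.Agent.Helper80.SI

variable {n : ℕ}

theorem DD_per {A : Matrix (Fin n ⊕ Fin n) (Fin n ⊕ Fin n) ℤ} {F : E n → E n}
    (h : SympLift n A F) (x : E n) (k : Fin n ⊕ Fin n → ℤ) : DD F (x + lat k) = DD F x := by
  have h1 : fderiv ℝ F (x + lat k) = fderiv ℝ F x := by
    rw [← fderiv_comp_add_right (lat k)]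
    have h2 : (fun y => F (y + lat k)) = fun y => F y + lat (A.mulVec k) := funext fun y =>
      h.equi y k
    rw [h2, fderiv_add_const]
  unfold DD
  rw [h1]

/-- Joint continuity of the derivative of a path. -/
theorem continuous_DD {P : ℝ → E n → E n} (hP : ContDiff ℝ ∞ (fun p : ℝ × E n => P p.1 p.2)) :
    Continuous (fun p : ℝ × E n => DD (P p.1) p.2) := by
  have h1 : ∀ p : ℝ × E n, fderiv ℝ (P p.1) p.2 =
      (fderiv ℝ (fun p : ℝ × E n => P p.1 p.2) p).comp (ContinuousLinearMap.inr ℝ ℝ (E n)) := by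
    intro p
    have h2 : HasFDerivAt (fun p : ℝ × E n => P p.1 p.2)
        (fderiv ℝ (fun p : ℝ × E n => P p.1 p.2) p) (p.1, p.2) :=
      (hP.contDiffAt.differentiableAt (by simp)).hasFDerivAt
    exact (h2.comp p.2 (hasFDerivAt_prodMk_right p.1 p.2)).fderiv
  have h3 : Continuous (fun p : ℝ × E n => fderiv ℝ (P p.1) p.2) := by
    simp only [h1]
    exact (hP.continuous_fderiv (by simp)).clm_comp continuous_const
  refine continuous_matrix fun i j => ?_
  have h4 : ∀ p : ℝ × E n, DD (P p.1) p.2 i j = fderiv ℝ (P p.1) p.2 (Pi.single j 1) i := by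
    intro p
    unfold DD
    rw [LinearMap.toMatrix'_apply]
    rfl
  simp only [h4]
  exact (continuous_apply i).comp (h3.clm_apply continuous_const)

theorem continuous_DD' {F : E n → E n} (hF : ContDiff ℝ ∞ F) : Continuous (DD F) := by
  have h1 : Continuous (fun p : ℝ × E n => DD F p.2) :=
    continuous_DD (P := fun _ => F) (hF.comp contDiff_snd)
  exact h1.comp (continuous_const.prodMk continuous_id : Continuous fun x : E n => ((0 : ℝ), x))

theorem continuous_sq : Continuous (sq : E n → ℝ) := by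
  unfold sq dotProduct
  exact continuous_finsetSum _ fun i _ => (continuous_apply i).mul (continuous_apply i)

theorem isCompact_sphere : IsCompact {v : E n | sq v = 1} := by
  refine Metric.isCompact_of_isClosed_isBounded (isClosed_eq continuous_sq continuous_const) ?_
  refine (Metric.isBounded_closedBall (x := (0 : E n)) (r := 1)).subset fun v hv => ?_
  rw [mem_closedBall_zero_iff, pi_norm_le_iff_of_nonneg zero_le_one]
  intro i
  have h1 : v i * v i ≤ sq v :=
    Finset.single_le_sum (f := fun i => v i * v i) (fun j _ => mul_self_nonneg _)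
      (Finset.mem_univ i)
  rw [show sq v = 1 from hv] at h1
  rw [Real.norm_eq_abs]
  exact abs_le_one_iff_mul_self_le_one.2 h1

/-- A strict inequality on the torus is a strict inequality with a smaller constant. -/
theorem exists_uniform {C : E n → Mt n} (hC : Continuous C) (hp : ∀ x k, C (x + lat k) = C x)
    (h : ∀ x v, v ≠ 0 → sq ((C x).mulVec v) < 4 * sq v) :
    ∃ m : ℝ, 0 ≤ m ∧ m < 4 ∧ ∀ x v, sq ((C x).mulVec v) ≤ m * sq v := by
  have hf : Continuous (fun p : E n × E n => sq ((C p.1).mulVec p.2)) :=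
    continuous_sq.comp ((hC.comp continuous_fst).matrix_mulVec continuous_snd)
  have hK : IsCompact (cube n ×ˢ {v : E n | sq v = 1}) := isCompact_cube.prod isCompact_sphere
  have key : ∀ m : ℝ, 0 ≤ m → (∀ x ∈ cube n, ∀ v, sq v = 1 → sq ((C x).mulVec v) ≤ m) →
      ∀ x v, sq ((C x).mulVec v) ≤ m * sq v := by
    intro m hm h1 x v
    by_cases hv : v = 0
    · rw [hv, Matrix.mulVec_zero]
      have : sq (0 : E n) = 0 := by simp [sq]
      rw [this, mul_zero]
    obtain ⟨k, hk⟩ := exists_red x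
    have h2 := sq_pos hv
    set r := Real.sqrt (sq v) with hr
    have hr2 : r ^ 2 = sq v := Real.sq_sqrt h2.le
    have hr0 : r ≠ 0 := (Real.sqrt_pos.2 h2).ne'
    have h3 : sq (r⁻¹ • v) = 1 := by
      rw [sq_smul, ← hr2, inv_pow, inv_mul_cancel₀ (pow_ne_zero 2 hr0)]
    have h4 := h1 (x + lat k) hk _ h3
    rw [hp, Matrix.mulVec_smul, sq_smul, inv_pow, hr2, inv_mul_le_iff₀ h2, mul_comm] at h4
    exact h4
  by_cases hne : (cube n ×ˢ {v : E n | sq v = 1}).Nonempty
  · obtain ⟨p, ⟨hp1, hp2⟩, hmax⟩ := hK.exists_isMaxOn hne hf.continuousOn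
    refine ⟨sq ((C p.1).mulVec p.2), sq_nonneg' _, ?_, key _ (sq_nonneg' _) ?_⟩
    · have h1 : p.2 ≠ 0 := by
        intro h2
        have h3 : sq p.2 = 1 := hp2
        rw [h2] at h3
        simp [sq] at h3
      have h2 := h p.1 p.2 h1
      rwa [show sq p.2 = 1 from hp2, mul_one] at h2
    · intro x hx v hv
      exact hmax (a := (x, v)) ⟨hx, hv⟩
  · refine ⟨0, le_rfl, by norm_num, key _ le_rfl ?_⟩
    intro x hx v hv
    exact (hne ⟨(x, v), hx, hv⟩).elim

theorem sq_add_le (a b : E n) {η : ℝ} (hη : 0 < η) :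
    sq (a + b) ≤ (1 + η) * sq a + (1 + 1 / η) * sq b := by
  have h1 := sq_nonneg' (η • a - b)
  rw [sub_eq_add_neg, sq_add, sq_smul, sq_neg, dotProduct_neg, smul_dotProduct, smul_eq_mul] at h1
  have h2 : 2 * (a ⬝ᵥ b) ≤ η * sq a + (1 / η) * sq b := by
    rw [← sub_nonneg]
    have h3 : η * sq a + 1 / η * sq b - 2 * (a ⬝ᵥ b) =
        (1 / η) * (η ^ 2 * sq a + 2 * -(η * (a ⬝ᵥ b)) + sq b) := by
      field_simp
      ring
    rw [h3]
    exact mul_nonneg (by positivity) h1
  rw [sq_add]
  linarith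

end Pool.Agent.Helper80.SI
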