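import Pool.Agent.Helper80.SI.Fam
import Pool.Agent.Helper80.SI.Alg
import Pool.Agent.Helper80.SI.Comp

/-!
# SI: the path from a symplectomorphism to the identity
-/

set_option autoImplicit false

open scoped ContDiff Topology

namespace Pool.Agent.Helper80.SI

variable {n : ℕ}

/-- The continuous linear map of a matrix. -/
noncomputable def cl (M : Mt n) : E n →L[ℝ] E n :=
  LinearMap.toContinuousLinearMap (Matrix.toLin' M)

theorem cl_ap (M : Mt n) (v : E n) : cl M v = M.mulVec v := by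
  unfold cl
  rw [LinearMap.coe_toContinuousLinearMap', Matrix.toLin'_apply]

theorem cl_inj {M N : Mt n} (h : cl M = cl N) : M = N := by
  refine Matrix.ext_of_mulVec_single fun i => ?_
  rw [← cl_ap, ← cl_ap, h]

theorem exists_equiv {M : Mt n} (h : M.det ≠ 0) : ∃ L : E n ≃L[ℝ] E n, (L : E n →L[ℝ] E n) = cl M := by
  have hu : IsUnit M.det := isUnit_iff_ne_zero.2 h
  refine ⟨ContinuousLinearEquiv.equivOfInverse (cl M) (cl M⁻¹) ?_ ?_, ?_⟩
  · intro v
    rw [cl_ap, cl_ap, Matrix.mulVec_mulVec, Matrix.nonsing_inv_mul _ hu, Matrix.one_mulVec]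
  · intro v
    rw [cl_ap, cl_ap, Matrix.mulVec_mulVec, Matrix.mul_nonsing_inv _ hu, Matrix.one_mulVec]
  · ext1 v
    rfl

theorem deriv_aux {Φ : E n → E n} {z : E n} (hΦ : DifferentiableAt ℝ Φ z) (W : Mt n) (r : ℝ) :
    HasFDerivAt (fun z => z + (W.mulVec (Φ z - z) + r • (Φ z - z)))
      (cl (1 + (W * (DD Φ z - 1) + r • (DD Φ z - 1)))) z := by
  have h1 : HasFDerivAt (fun z => Φ z - z) (cl (DD Φ z - 1)) z := by
    have h2 := (hasFDerivAt_DD hΦ).sub (hasFDerivAt_id z)
    have h3 : cl (DD Φ z - 1) = (LinearMap.toContinuousLinearMap (Matrix.toLin' (DD Φ z)) :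
        E n →L[ℝ] E n) - ContinuousLinearMap.id ℝ (E n) := by
      ext1 v
      rw [cl_ap, Matrix.sub_mulVec, Matrix.one_mulVec]
      rfl
    rw [h3]
    exact h2
  have h4 : HasFDerivAt (fun z => W.mulVec (Φ z - z)) ((cl W).comp (cl (DD Φ z - 1))) z := by
    have h5 := (cl W).hasFDerivAt.comp z h1
    have h6 : (fun z => W.mulVec (Φ z - z)) = (cl W) ∘ fun z => Φ z - z := by
      funext y
      rw [Function.comp_apply, cl_ap]
    rw [h6]
    exact h5
  have h7 := (hasFDerivAt_id z).add (h4.add (h1.const_smul r))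
  have h8 : cl (1 + (W * (DD Φ z - 1) + r • (DD Φ z - 1))) =
      ContinuousLinearMap.id ℝ (E n) + ((cl W).comp (cl (DD Φ z - 1)) +
        r • cl (DD Φ z - 1)) := by
    ext1 v
    simp only [add_apply, smul_apply,
      ContinuousLinearMap.comp_apply, ContinuousLinearMap.id_apply, cl_ap, Matrix.add_mulVec,
      Matrix.smul_mulVec, Matrix.mulVec_mulVec, Matrix.one_mulVec]
  rw [h8]
  exact h7

/-- The path. -/
theorem core {W : ℝ → Mt n} {m : ℝ → ℝ} (hWm : ConfPath n W m)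
    {Φ : E n → E n} (hΦ : SympLift n 1 Φ)
    (h : ∀ s ∈ Set.Icc (0 : ℝ) 1, ∀ x, (1 + W s * (DD Φ x - 1)).det ≠ 0) :
    Isotopic n 1 Φ (fun x => x) := by
  have hM : ∀ s ∈ Set.Icc (0 : ℝ) 1, ∀ x, (MM (W s) (DD Φ x)).det ≠ 0 := h
  have hN : ∀ s ∈ Set.Icc (0 : ℝ) 1, ∀ x, (NN (W s) (DD Φ x) (m s)).det ≠ 0 := fun s hs x =>
    NN_det (hWm.conf s hs) (hΦ.symp x) (hM s hs x)
  set v : E n → E n := fun z => Φ z - z with hv
  have hvs : ContDiff ℝ ∞ v := hΦ.smooth.sub contDiff_id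
  have hvp : ∀ x k, v (x + lat k) = v x := by
    intro x k
    show Φ (x + lat k) - (x + lat k) = Φ x - x
    rw [hΦ.equi, Matrix.one_mulVec]
    abel
  have hWv : ContDiff ℝ ∞ (fun p : ℝ × E n => (W p.1).mulVec (v p.2)) := by
    rw [contDiff_pi]
    intro i
    have h1 : (fun p : ℝ × E n => (W p.1).mulVec (v p.2) i) =
        fun p : ℝ × E n => ∑ j, W p.1 i j * v p.2 j := rfl
    rw [h1]
    refine ContDiff.sum fun j _ => ((hWm.smooth i j).comp contDiff_fst).mul ?_
    exact (contDiff_pi.1 hvs j).comp contDiff_snd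
  have hsub : ContDiff ℝ ∞ (fun p : ℝ × E n => (1 - p.1, p.2)) :=
    (contDiff_const.sub contDiff_fst).prodMk contDiff_snd
  -- the two families
  have hK1 : ContDiff ℝ ∞ (fun p : ℝ × E n =>
      (W (1 - p.1)).mulVec (v p.2) + (1 - m (1 - p.1)) • v p.2) := by
    refine (hWv.comp hsub).add ?_
    exact (contDiff_const.sub (hWm.smooth'.comp (contDiff_const.sub contDiff_fst))).smul
      (hvs.comp contDiff_snd)
  have hdM : ∀ (s : ℝ) (z : E n), HasFDerivAt (fun x => x + (W s).mulVec (v x))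
      (cl (MM (W s) (DD Φ z))) z := by
    intro s z
    have h1 := deriv_aux (hΦ.diff z) (W s) 0
    simp only [zero_smul, add_zero] at h1
    exact h1
  have hdK : ∀ (s : ℝ) (z : E n), HasFDerivAt
      (fun x => x + ((W s).mulVec (v x) + (1 - m s) • v x)) (cl (NN (W s) (DD Φ z) (m s))) z := by
    intro s z
    have h1 := deriv_aux (hΦ.diff z) (W s) (1 - m s)
    rw [← add_assoc] at h1
    exact h1
  have hiM : ∀ s ∈ Set.Icc (0 : ℝ) 1, ∀ z, ∃ L : E n ≃L[ℝ] E n,
      HasFDerivAt (fun x => x + (W s).mulVec (v x)) (L : E n →L[ℝ] E n) z := by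
    intro s hs z
    obtain ⟨L, hL⟩ := exists_equiv (hM s hs z)
    exact ⟨L, hL ▸ hdM s z⟩
  have hiK : ∀ s ∈ Set.Icc (0 : ℝ) 1, ∀ z, ∃ L : E n ≃L[ℝ] E n,
      HasFDerivAt (fun x => x + ((W s).mulVec (v x) + (1 - m s) • v x)) (L : E n →L[ℝ] E n) z := by
    intro s hs z
    obtain ⟨L, hL⟩ := exists_equiv (hN s hs z)
    exact ⟨L, hL ▸ hdK s z⟩
  have hbM : ∀ s ∈ Set.Icc (0 : ℝ) 1, Function.Bijective fun x => x + (W s).mulVec (v x) := by
    refine fam_bijective hWv (fun s x k => ?_) ?_ hiM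
    · show (W s).mulVec (v (x + lat k)) = (W s).mulVec (v x)
      rw [hvp]
    · intro x y hxy
      simpa [hWm.zero] using hxy
  have hbK : ∀ s ∈ Set.Icc (0 : ℝ) 1,
      Function.Bijective fun x => x + ((W s).mulVec (v x) + (1 - m s) • v x) := by
    have h1 := fam_bijective hK1 (fun s x k => ?_) ?_ (fun s hs z => ?_)
    · intro s hs
      have hs' : 1 - s ∈ Set.Icc (0 : ℝ) 1 := ⟨by linarith [hs.2], by linarith [hs.1]⟩
      have h2 := h1 (1 - s) hs'
      simp only [sub_sub_cancel] at h2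
      exact h2
    · show (W (1 - s)).mulVec (v (x + lat k)) + (1 - m (1 - s)) • v (x + lat k) =
        (W (1 - s)).mulVec (v x) + (1 - m (1 - s)) • v x
      rw [hvp]
    · have h2 := (hbM 1 ⟨zero_le_one, le_rfl⟩).1
      simpa [hWm.one] using h2
    · exact hiK (1 - s) ⟨by linarith [hs.2], by linarith [hs.1]⟩ z
  -- the inverse of the joint map
  set σ : ℝ → ℝ := Real.smoothTransition with hσ
  have hσs : ContDiff ℝ ∞ σ := Real.smoothTransition.contDiff
  have hσm : ∀ t, σ t ∈ Set.Icc (0 : ℝ) 1 := fun t =>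
    ⟨Real.smoothTransition.nonneg t, Real.smoothTransition.le_one t⟩
  have hσ2 : ContDiff ℝ ∞ (fun p : ℝ × E n => (σ p.1, p.2)) :=
    (hσs.comp contDiff_fst).prodMk contDiff_snd
  have hM2 : ContDiff ℝ ∞ (fun p : ℝ × E n => (W (σ p.1)).mulVec (v p.2)) := hWv.comp hσ2
  obtain ⟨G, hG, hGl, hGr⟩ : ∃ G : ℝ × E n → ℝ × E n, ContDiff ℝ ∞ G ∧
      Function.LeftInverse G (fun p : ℝ × E n => (p.1, p.2 + (W (σ p.1)).mulVec (v p.2))) ∧
      Function.RightInverse G (fun p : ℝ × E n => (p.1, p.2 + (W (σ p.1)).mulVec (v p.2))) := by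
    refine smooth_inverse (contDiff_fst.prodMk (contDiff_snd.add hM2)) ?_ ?_
    · constructor
      · rintro ⟨a, x⟩ ⟨b, y⟩ hxy
        have h1 : a = b := congrArg Prod.fst hxy
        subst h1
        have h2 : x + (W (σ a)).mulVec (v x) = y + (W (σ a)).mulVec (v y) :=
          congrArg Prod.snd hxy
        rw [(hbM (σ a) (hσm a)).1 h2]
      · rintro ⟨a, y⟩
        obtain ⟨x, hx⟩ := (hbM (σ a) (hσm a)).2 y
        exact ⟨(a, x), Prod.ext rfl hx⟩
    · rintro ⟨a, x⟩
      exact total_deriv hM2 (hiM (σ a) (hσm a) x)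
  set g : ℝ → E n → E n := fun t y => (G (t, y)).2 with hg
  have hgM : ∀ t z, g t (z + (W (σ t)).mulVec (v z)) = z := by
    intro t z
    exact congrArg Prod.snd (hGl (t, z))
  have hMg : ∀ t y, g t y + (W (σ t)).mulVec (v (g t y)) = y := by
    intro t y
    have h1 := hGr (t, y)
    have h2 : (G (t, y)).1 = t := congrArg Prod.fst h1
    have h3 : (G (t, y)).2 + (W (σ (G (t, y)).1)).mulVec (v (G (t, y)).2) = y :=
      congrArg Prod.snd h1
    rw [h2] at h3
    exact h3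
  set P : ℝ → E n → E n := fun t y => y + (1 - m (σ t)) • v (g t y) with hP
  have hPs : ContDiff ℝ ∞ (fun p : ℝ × E n => P p.1 p.2) := by
    refine contDiff_snd.add ((contDiff_const.sub
      (hWm.smooth'.comp (hσs.comp contDiff_fst))).smul (hvs.comp ?_))
    exact contDiff_snd.comp (hG.comp (contDiff_fst.prodMk contDiff_snd))
  have hPt : ∀ t, ContDiff ℝ ∞ (P t) := fun t =>
    hPs.comp (contDiff_const.prodMk contDiff_id)
  have hPM : ∀ t z, P t (z + (W (σ t)).mulVec (v z)) =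
      z + ((W (σ t)).mulVec (v z) + (1 - m (σ t)) • v z) := by
    intro t z
    show z + (W (σ t)).mulVec (v z) +
      (1 - m (σ t)) • v (g t (z + (W (σ t)).mulVec (v z))) = _
    rw [hgM, add_assoc]
  have hPd : ∀ t y, HasFDerivAt (P t) (cl (DD (P t) y)) y := fun t y =>
    hasFDerivAt_DD ((hPt t).contDiffAt.differentiableAt (by simp))
  have hPD : ∀ t y, DD (P t) y =
      NN (W (σ t)) (DD Φ (g t y)) (m (σ t)) * (MM (W (σ t)) (DD Φ (g t y)))⁻¹ := by
    intro t y
    set z := g t y with hz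
    have hu : IsUnit (MM (W (σ t)) (DD Φ z)).det :=
      isUnit_iff_ne_zero.2 (hM (σ t) (hσm t) z)
    have h1 : DD (P t) y * MM (W (σ t)) (DD Φ z) = NN (W (σ t)) (DD Φ z) (m (σ t)) := by
      have h2 := hPd t (z + (W (σ t)).mulVec (v z))
      have h3 := HasFDerivAt.comp z h2 (hdM (σ t) z)
      have h4 : (P t ∘ fun x => x + (W (σ t)).mulVec (v x)) =
          fun x => x + ((W (σ t)).mulVec (v x) + (1 - m (σ t)) • v x) :=
        funext fun x => hPM t x
      rw [h4, hMg] at h3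
      have h5 := h3.unique (hdK (σ t) z)
      refine cl_inj ?_
      rw [← h5]
      ext1 w
      rw [cl_ap, ContinuousLinearMap.comp_apply, cl_ap, cl_ap, Matrix.mulVec_mulVec]
    rw [← h1, mul_assoc, Matrix.mul_nonsing_inv _ hu, mul_one]
  have hPdet : ∀ t y, (DD (P t) y).det ≠ 0 := by
    intro t y
    rw [hPD, Matrix.det_mul]
    refine mul_ne_zero (hN (σ t) (hσm t) _) ?_
    rw [Matrix.det_nonsing_inv]
    exact (isUnit_iff_ne_zero.2 (hM (σ t) (hσm t) _)).ringInverse.ne_zero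
  refine ⟨P, hPs, ?_, ?_, fun t _ => ⟨by simp, hPt t, ?_, ?_, ?_⟩⟩
  · funext y
    have h1 : σ 0 = 0 := Real.smoothTransition.zero
    have h2 := hMg 0 y
    rw [h1, hWm.zero, Matrix.zero_mulVec, add_zero] at h2
    show y + (1 - m (σ 0)) • v (g 0 y) = Φ y
    rw [h1, h2, hWm.zero', sub_zero, one_smul]
    show y + (Φ y - y) = Φ y
    abel
  · funext y
    have h1 : σ 1 = 1 := Real.smoothTransition.one
    show y + (1 - m (σ 1)) • v (g 1 y) = y
    rw [h1, hWm.one, sub_self, zero_smul, add_zero]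
  · refine smooth_inverse (hPt t) ?_ fun y => ?_
    · refine (Function.Bijective.of_comp_iff (P t) (hbM (σ t) (hσm t))).1 ?_
      have h4 : (P t ∘ fun x => x + (W (σ t)).mulVec (v x)) =
          fun x => x + ((W (σ t)).mulVec (v x) + (1 - m (σ t)) • v x) :=
        funext fun x => hPM t x
      rw [h4]
      exact hbK (σ t) (hσm t)
    · obtain ⟨L, hL⟩ := exists_equiv (hPdet t y)
      exact ⟨L, hL ▸ hPd t y⟩
  · intro x k
    have h1 : g t (x + lat k) = g t x + lat k := by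
      have h2 := hgM t (g t x + lat k)
      rw [hvp, add_right_comm, hMg] at h2
      exact h2
    show x + lat k + (1 - m (σ t)) • v (g t (x + lat k)) =
      x + (1 - m (σ t)) • v (g t x) + lat (Matrix.mulVec 1 k)
    rw [h1, hvp, Matrix.one_mulVec, add_right_comm]
  · intro x
    rw [hPD]
    exact NM_symp (hWm.conf _ (hσm t)) (hΦ.symp _) (hM _ (hσm t) _)

end Pool.Agent.Helper80.SI
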