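import Pool.Agent.Helper80.SI.Pair

/-!
# SI: explicit criteria
-/

set_option autoImplicit false

open Matrix

namespace Pool.Agent.Helper80.SI

variable {n : ℕ} {A : Matrix (Fin n ⊕ Fin n) (Fin n ⊕ Fin n) ℤ} {F G : E n → E n}

/-- `R = (1 + U)⁻¹` satisfies `J R + Rᵀ J = J`. -/
theorem RJ {U : Mt n} (hU : U ∈ symplecticGroup (Fin n) ℝ) (hd : (1 + U).det ≠ 0) :
    J (Fin n) ℝ * (1 + U)⁻¹ + ((1 + U)⁻¹)ᵀ * J (Fin n) ℝ = J (Fin n) ℝ := by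
  have hu : IsUnit (1 + U).det := isUnit_iff_ne_zero.2 hd
  have hut : IsUnit (1 + U)ᵀ.det := by rwa [det_transpose]
  have h1 : Uᵀ * J (Fin n) ℝ * U = J (Fin n) ℝ := SymplecticGroup.mem_iff'.1 hU
  have h2 : (1 + U)ᵀ * J (Fin n) ℝ * (1 + U) =
      J (Fin n) ℝ * (1 + U) + (1 + U)ᵀ * J (Fin n) ℝ := by
    rw [transpose_add, transpose_one]
    have : (1 + Uᵀ) * J (Fin n) ℝ * (1 + U) = J (Fin n) ℝ + J (Fin n) ℝ * U + Uᵀ * J (Fin n) ℝ +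
      Uᵀ * J (Fin n) ℝ * U := by noncomm_ring
    rw [this, h1]
    noncomm_ring
  have h3 : ((1 + U)⁻¹)ᵀ * (1 + U)ᵀ = 1 := by
    rw [← transpose_mul, mul_nonsing_inv _ hu, transpose_one]
  have h4 : (1 + U) * (1 + U)⁻¹ = 1 := mul_nonsing_inv _ hu
  calc J (Fin n) ℝ * (1 + U)⁻¹ + ((1 + U)⁻¹)ᵀ * J (Fin n) ℝ
      = (((1 + U)⁻¹)ᵀ * (1 + U)ᵀ) * J (Fin n) ℝ * (1 + U)⁻¹ +
        ((1 + U)⁻¹)ᵀ * J (Fin n) ℝ * ((1 + U) * (1 + U)⁻¹) := by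
          rw [h3, h4, mul_one, one_mul]
    _ = ((1 + U)⁻¹)ᵀ * (J (Fin n) ℝ * (1 + U) + (1 + U)ᵀ * J (Fin n) ℝ) * (1 + U)⁻¹ := by
          noncomm_ring
    _ = ((1 + U)⁻¹)ᵀ * ((1 + U)ᵀ * J (Fin n) ℝ * (1 + U)) * (1 + U)⁻¹ := by rw [h2]
    _ = (((1 + U)⁻¹)ᵀ * (1 + U)ᵀ) * J (Fin n) ℝ * ((1 + U) * (1 + U)⁻¹) := by noncomm_ring
    _ = J (Fin n) ℝ := by rw [h3, h4, mul_one, one_mul]

/-- The criterion with a symplectic matrix `U`. -/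
theorem crit_U {U : Mt n} (hU : U ∈ symplecticGroup (Fin n) ℝ) (hd : (1 + U).det ≠ 0)
    (hF : SympLift n A F) (hG : SympLift n A G)
    (h : ∀ x, ∀ t : ℝ, 0 ≤ t → (DD F x * (DD G x)⁻¹ + U + t • (1 + U)).det ≠ 0) :
    Isotopic n A F G := by
  refine straight (RJ hU hd) hF hG fun s hs x => ?_
  set B := DD F x * (DD G x)⁻¹ with hB
  have hu : IsUnit (1 + U).det := isUnit_iff_ne_zero.2 hd
  have h0 : s ≠ 0 := hs.1.ne'
  have h1 : (1 + U) * (1 + s • ((1 + U)⁻¹ * (B - 1))) =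
      s • (B + U + (1 / s - 1) • (1 + U)) := by
    have h2 : (1 + U) * ((1 + U)⁻¹ * (B - 1)) = B - 1 := by
      rw [← mul_assoc, mul_nonsing_inv _ hu, one_mul]
    rw [mul_add, mul_one, mul_smul_comm, h2, smul_add s, smul_smul, mul_sub, mul_one,
      mul_one_div_cancel h0]
    module
  intro h3
  have h4 := congrArg det h1
  rw [det_mul, h3, mul_zero, det_smul] at h4
  exact mul_ne_zero (pow_ne_zero _ h0) (h x _ (by
    rw [sub_nonneg, le_div_iff₀ hs.1, one_mul]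
    exact hs.2)) h4.symm

/-- The spectral criterion: no `B x` has an eigenvalue in `(-∞, -1]`. -/
theorem crit_spec (hF : SympLift n A F) (hG : SympLift n A G)
    (h : ∀ x, ∀ r : ℝ, 1 ≤ r → (DD F x * (DD G x)⁻¹ + r • (1 : Mt n)).det ≠ 0) :
    Isotopic n A F G := by
  refine crit_U (U := 1) (one_mem _) ?_ hF hG fun x t ht => ?_
  · have h1 : (1 + 1 : Mt n) = (2 : ℝ) • 1 := by module
    rw [h1, det_smul, det_one, mul_one]
    positivity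
  · have h1 : DD F x * (DD G x)⁻¹ + 1 + t • (1 + 1 : Mt n) =
        DD F x * (DD G x)⁻¹ + (1 + 2 * t) • (1 : Mt n) := by module
    rw [h1]
    exact h x _ (by linarith)

/-- The block criterion. -/
theorem crit_block {P : Mt n} (hP : P ∈ symplecticGroup (Fin n) ℝ)
    (hF : SympLift n A F) (hG : SympLift n A G)
    (h : ∀ x, ∀ r : ℝ, 0 ≤ r → ((P * (DD F x * (DD G x)⁻¹) * P⁻¹).toBlocks₁₁ +
      r • (1 : Matrix (Fin n) (Fin n) ℝ)).det ≠ 0) :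
    Isotopic n A F G := by
  have hPu : IsUnit P.det := SymplecticGroup.symplectic_det hP
  have hPJ : Pᵀ * J (Fin n) ℝ * P = J (Fin n) ℝ := SymplecticGroup.mem_iff'.1 hP
  have hPP : P * P⁻¹ = 1 := mul_nonsing_inv _ hPu
  have hPP' : P⁻¹ * P = 1 := nonsing_inv_mul _ hPu
  have hPPt : Pᵀ * (P⁻¹)ᵀ = 1 := by rw [← transpose_mul, hPP', transpose_one]
  set T : Mt n := fromBlocks 1 0 0 0 with hT
  have hJT : J (Fin n) ℝ * T + Tᵀ * J (Fin n) ℝ = J (Fin n) ℝ := by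
    rw [hT, J, fromBlocks_transpose, fromBlocks_multiply, fromBlocks_multiply, fromBlocks_add]
    simp
  have hR : J (Fin n) ℝ * (P⁻¹ * T * P) + (P⁻¹ * T * P)ᵀ * J (Fin n) ℝ = J (Fin n) ℝ := by
    have h1 : J (Fin n) ℝ * P⁻¹ = Pᵀ * J (Fin n) ℝ := by
      calc J (Fin n) ℝ * P⁻¹ = (Pᵀ * J (Fin n) ℝ * P) * P⁻¹ := by rw [hPJ]
        _ = Pᵀ * J (Fin n) ℝ * (P * P⁻¹) := by noncomm_ring
        _ = Pᵀ * J (Fin n) ℝ := by rw [hPP, mul_one]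
    have h2 : (P⁻¹)ᵀ * J (Fin n) ℝ = J (Fin n) ℝ * P := by
      have hP1 : P⁻¹ᵀ * Pᵀ = 1 := by rw [← transpose_mul, hPP, transpose_one]
      calc (P⁻¹)ᵀ * J (Fin n) ℝ = (P⁻¹)ᵀ * (Pᵀ * J (Fin n) ℝ * P) := by rw [hPJ]
        _ = ((P⁻¹)ᵀ * Pᵀ) * (J (Fin n) ℝ * P) := by noncomm_ring
        _ = J (Fin n) ℝ * P := by rw [hP1, one_mul]
    calc J (Fin n) ℝ * (P⁻¹ * T * P) + (P⁻¹ * T * P)ᵀ * J (Fin n) ℝ
        = (J (Fin n) ℝ * P⁻¹) * T * P + Pᵀ * Tᵀ * ((P⁻¹)ᵀ * J (Fin n) ℝ) := by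
          rw [transpose_mul, transpose_mul]
          noncomm_ring
      _ = Pᵀ * (J (Fin n) ℝ * T + Tᵀ * J (Fin n) ℝ) * P := by
          rw [h1, h2]
          noncomm_ring
      _ = J (Fin n) ℝ := by rw [hJT, hPJ]
  refine straight hR hF hG fun s hs x => ?_
  set B := DD F x * (DD G x)⁻¹ with hB
  have h1 : 1 + s • (P⁻¹ * T * P * (B - 1)) =
      P⁻¹ * (1 + s • (T * (P * B * P⁻¹ - 1))) * P := by
    have h2 : P⁻¹ * (T * (P * B * P⁻¹ - 1)) * P = P⁻¹ * T * P * (B - 1) := by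
      calc P⁻¹ * (T * (P * B * P⁻¹ - 1)) * P
          = P⁻¹ * T * P * B * (P⁻¹ * P) - P⁻¹ * T * P := by noncomm_ring
        _ = P⁻¹ * T * P * (B - 1) := by
          rw [hPP', mul_one, mul_sub, mul_one]
    rw [mul_add, add_mul, mul_one, hPP', mul_smul_comm, smul_mul_assoc, h2]
  rw [h1, det_mul, det_mul, mul_comm, ← mul_assoc, ← det_mul, hPP, det_one, one_mul]
  set C := P * B * P⁻¹ with hC
  have h3 : 1 + s • (T * (C - 1)) =
      fromBlocks ((1 - s) • 1 + s • C.toBlocks₁₁) (s • C.toBlocks₁₂) 0 1 := by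
    have h4 : C = fromBlocks C.toBlocks₁₁ C.toBlocks₁₂ C.toBlocks₂₁ C.toBlocks₂₂ :=
      (fromBlocks_toBlocks C).symm
    have h5 : C - 1 = fromBlocks (C.toBlocks₁₁ - 1) C.toBlocks₁₂ C.toBlocks₂₁
        (C.toBlocks₂₂ - 1) := by
      conv_lhs => rw [h4, ← fromBlocks_one, sub_eq_add_neg, fromBlocks_neg, fromBlocks_add]
      simp [sub_eq_add_neg]
    rw [h5, hT, fromBlocks_multiply, fromBlocks_smul, ← fromBlocks_one, fromBlocks_add]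
    congr 1
    · rw [one_mul, zero_mul, add_zero]
      module
    · simp
    · simp
    · simp
  rw [h3, det_fromBlocks_zero₂₁, det_one, mul_one]
  have h6 : (1 - s) • (1 : Matrix (Fin n) (Fin n) ℝ) + s • C.toBlocks₁₁ =
      s • (C.toBlocks₁₁ + ((1 - s) / s) • 1) := by
    rw [smul_add, smul_smul, mul_div_cancel₀ _ hs.1.ne', add_comm]
  rw [h6, det_smul]
  exact mul_ne_zero (pow_ne_zero _ hs.1.ne')
    (h x _ (div_nonneg (by linarith [hs.2]) hs.1.le))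

end Pool.Agent.Helper80.SI
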