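import Mathlib

/-!
# Project SI (MP_d0c42b_gt): symplectic isotopy of symplectomorphisms of the torus. Definitions

`E n` is `ℝ ^ (2 n)`, the coordinates are indexed by `Fin n ⊕ Fin n`. `lat k` is the vector with the
integer coordinates `k`.

* `SympLift n A F`: `F` is the lift to `ℝ ^ (2 n)` of a symplectomorphism of the torus which acts on
  the lattice by the integer matrix `A` (the same encoding as in the frozen statement S13973).
* `Isotopic n A F G`: a smooth path of such lifts joins `F` and `G`.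
* `DD F x`: the matrix of the derivative.
* `Near n A F G`: `|DF(x) DG(x)⁻¹ v - v| < 2 |v|` for all `x` and all `v ≠ 0`.
-/

set_option autoImplicit false

open scoped ContDiff

namespace Pool.Agent.Helper80.SI

/-- The space `ℝ ^ (2 n)`. -/
abbrev E (n : ℕ) := Fin n ⊕ Fin n → ℝ

/-- Real matrices of size `2 n`. -/
abbrev Mt (n : ℕ) := Matrix (Fin n ⊕ Fin n) (Fin n ⊕ Fin n) ℝ

/-- The vector with the integer coordinates `k`. -/
def lat {n : ℕ} (k : Fin n ⊕ Fin n → ℤ) : E n := fun i => (k i : ℝ)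

/-- The matrix of the derivative. -/
noncomputable def DD {n : ℕ} (F : E n → E n) (x : E n) : Mt n :=
  LinearMap.toMatrix' ((fderiv ℝ F x : E n →L[ℝ] E n) : E n →ₗ[ℝ] E n)

/-- Lifts of symplectomorphisms of the torus. -/
structure SympLift (n : ℕ) (A : Matrix (Fin n ⊕ Fin n) (Fin n ⊕ Fin n) ℤ) (F : E n → E n) :
    Prop where
  unit : IsUnit A.det
  smooth : ContDiff ℝ ∞ F
  inv : ∃ H : E n → E n, ContDiff ℝ ∞ H ∧ Function.LeftInverse H F ∧ Function.RightInverse H F
  equi : ∀ (x : E n) (k : Fin n ⊕ Fin n → ℤ), F (x + lat k) = F x + lat (A.mulVec k)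
  symp : ∀ x, DD F x ∈ Matrix.symplecticGroup (Fin n) ℝ

/-- Symplectic isotopy. -/
def Isotopic (n : ℕ) (A : Matrix (Fin n ⊕ Fin n) (Fin n ⊕ Fin n) ℤ) (F G : E n → E n) : Prop :=
  ∃ P : ℝ → E n → E n, ContDiff ℝ ∞ (fun p : ℝ × E n => P p.1 p.2) ∧ P 0 = F ∧ P 1 = G ∧
    ∀ t ∈ Set.Icc (0 : ℝ) 1, SympLift n A (P t)

/-- A smooth path of matrices `W s`, conformally symplectic with the factor `m s`, from `0` to a
matrix with the factor `1`. -/
structure ConfPath (n : ℕ) (W : ℝ → Mt n) (m : ℝ → ℝ) : Prop where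
  smooth : ∀ i j, ContDiff ℝ ∞ fun s => W s i j
  smooth' : ContDiff ℝ ∞ m
  zero : W 0 = 0
  zero' : m 0 = 0
  one : m 1 = 1
  conf : ∀ s ∈ Set.Icc (0 : ℝ) 1, Matrix.J (Fin n) ℝ * W s + (W s).transpose * Matrix.J (Fin n) ℝ =
    m s • Matrix.J (Fin n) ℝ

/-- The square of the Euclidean norm. -/
def sq {n : ℕ} (v : E n) : ℝ := v ⬝ᵥ v

/-- The relative distance of the derivatives is less than `ε`. -/
def Close (n : ℕ) (A : Matrix (Fin n ⊕ Fin n) (Fin n ⊕ Fin n) ℤ) (ε : ℝ) (F G : E n → E n) : Prop :=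
  SympLift n A F ∧ SympLift n A G ∧
    ∀ x v, v ≠ 0 → sq ((DD F x * (DD G x)⁻¹ - 1).mulVec v) < ε ^ 2 * sq v

/-- The real matrix of an integral matrix. -/
def re {n : ℕ} (A : Matrix (Fin n ⊕ Fin n) (Fin n ⊕ Fin n) ℤ) : Mt n := A.map (Int.cast : ℤ → ℝ)

/-- The linear map of an integral matrix. -/
def lin {n : ℕ} (A : Matrix (Fin n ⊕ Fin n) (Fin n ⊕ Fin n) ℤ) : E n → E n :=
  fun x => (re A).mulVec x

/-- Elementary steps, with `B x = DF(x) DG(x)⁻¹`.

* `path`: the matrices `1 + W s (B x - 1)` are invertible for one conformally symplectic path `W`;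
* `spec`: no `B x` has an eigenvalue in `(-∞, -1]`;
* `block`: in one symplectic basis no upper left block of `B x` has an eigenvalue in `(-∞, 0]`;
* `metric`: in one symplectic basis all `B x` have distance less than `2` from one unitary matrix;
* `twist`: `G` is the linear map `A`, the upper right block `b` of `A` is invertible and
  `∂X/∂y + r b` is invertible for all `x` and all `r ≥ 0`. -/
inductive Step (n : ℕ) (A : Matrix (Fin n ⊕ Fin n) (Fin n ⊕ Fin n) ℤ) :
    (E n → E n) → (E n → E n) → Prop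
  | path {F G : E n → E n} (hF : SympLift n A F) (hG : SympLift n A G) (W : ℝ → Mt n) (m : ℝ → ℝ)
      (hW : ConfPath n W m)
      (h : ∀ s ∈ Set.Icc (0 : ℝ) 1, ∀ x, (1 + W s * (DD F x * (DD G x)⁻¹ - 1)).det ≠ 0) :
      Step n A F G
  | spec {F G : E n → E n} (hF : SympLift n A F) (hG : SympLift n A G)
      (h : ∀ x, ∀ r : ℝ, 1 ≤ r → (DD F x * (DD G x)⁻¹ + r • (1 : Mt n)).det ≠ 0) :
      Step n A F G
  | block {F G : E n → E n} (hF : SympLift n A F) (hG : SympLift n A G) (P : Mt n)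
      (hP : P ∈ Matrix.symplecticGroup (Fin n) ℝ)
      (h : ∀ x, ∀ r : ℝ, 0 ≤ r → ((P * (DD F x * (DD G x)⁻¹) * P⁻¹).toBlocks₁₁ +
        r • (1 : Matrix (Fin n) (Fin n) ℝ)).det ≠ 0) :
      Step n A F G
  | metric {F G : E n → E n} (hF : SympLift n A F) (hG : SympLift n A G) (Q U : Mt n)
      (hQ : Q ∈ Matrix.symplecticGroup (Fin n) ℝ) (hU : U ∈ Matrix.symplecticGroup (Fin n) ℝ)
      (hO : U.transpose * U = 1)
      (h : ∀ x v, v ≠ 0 → sq ((Q * (DD F x * (DD G x)⁻¹) * Q⁻¹ - U).mulVec v) < 4 * sq v) :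
      Step n A F G
  | twist {F : E n → E n} (hF : SympLift n A F) (hA : A ∈ Matrix.symplecticGroup (Fin n) ℤ)
      (hb : (re A).toBlocks₁₂.det ≠ 0)
      (h : ∀ x, ∀ r : ℝ, 0 ≤ r → ((DD F x).toBlocks₁₂ + r • (re A).toBlocks₁₂).det ≠ 0) :
      Step n A F (lin A)

end Pool.Agent.Helper80.SI
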