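import Pool.Agent.Helper80.SI.Inv
import Pool.Agent.Helper80.SI.Per

/-!
# SI: families of lattice-equivariant local diffeomorphisms
-/

set_option autoImplicit false

open scoped ContDiff Topology

namespace Pool.Agent.Helper80.SI

variable {n : ℕ}

/-- The derivative of `(s, x) ↦ (s, x + h (s, x))` is invertible. -/
theorem total_deriv {h : ℝ × E n → E n} (hs : ContDiff ℝ ∞ h) {s : ℝ} {x : E n}
    (hd : ∃ L : E n ≃L[ℝ] E n, HasFDerivAt (fun x => x + h (s, x)) (L : E n →L[ℝ] E n) x) :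
    ∃ T : (ℝ × E n) ≃L[ℝ] (ℝ × E n), HasFDerivAt (fun p : ℝ × E n => (p.1, p.2 + h p))
      (T : (ℝ × E n) →L[ℝ] (ℝ × E n)) (s, x) := by
  obtain ⟨L, hL⟩ := hd
  have hdiff : DifferentiableAt ℝ h (s, x) := hs.contDiffAt.differentiableAt (by simp)
  set D : (ℝ × E n) →L[ℝ] E n := ContinuousLinearMap.snd ℝ ℝ (E n) + fderiv ℝ h (s, x) with hD
  have h1 : HasFDerivAt (fun p : ℝ × E n => p.2 + h p) D (s, x) :=
    hasFDerivAt_snd.add hdiff.hasFDerivAt
  have h2 : HasFDerivAt (fun p : ℝ × E n => (p.1, p.2 + h p))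
      ((ContinuousLinearMap.fst ℝ ℝ (E n)).prod D) (s, x) := hasFDerivAt_fst.prodMk h1
  have h3 : ∀ w : E n, D (0, w) = L w := by
    have h4 : HasFDerivAt (fun y : E n => (s, y)) (ContinuousLinearMap.inr ℝ ℝ (E n)) x :=
      hasFDerivAt_prodMk_right s x
    have h5 := h1.comp x h4
    have h6 := h5.unique hL
    intro w
    have h7 := DFunLike.congr_fun h6 w
    exact h7
  have hadd : ∀ (a : ℝ) (w : E n), D (a, w) = D (a, 0) + L w := by
    intro a w
    rw [← h3, ← map_add]
    simp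
  refine ⟨ContinuousLinearEquiv.ofBijective ((ContinuousLinearMap.fst ℝ ℝ (E n)).prod D) ?_ ?_, ?_⟩
  · rw [LinearMap.ker_eq_bot']
    rintro ⟨a, w⟩ h7
    have h8 : a = 0 := congrArg Prod.fst h7
    have h9 : D (a, w) = 0 := congrArg Prod.snd h7
    rw [h8, h3] at h9
    rw [h8, (map_eq_zero_iff L L.injective).1 h9]
    rfl
  · rw [LinearMap.range_eq_top]
    rintro ⟨a, b⟩
    refine ⟨(a, L.symm (b - D (a, 0))), ?_⟩
    show (a, D (a, L.symm (b - D (a, 0)))) = (a, b)
    rw [hadd, L.apply_symm_apply]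
    congr 1
    abel
  · rw [ContinuousLinearEquiv.coe_ofBijective]
    exact h2

/-- A continuous map at bounded distance from the identity is closed. -/
theorem closedRange_of_bdd {f : E n → E n} (hf : Continuous f) {C : ℝ}
    (hC : ∀ x, ‖f x - x‖ ≤ C) : IsClosed (Set.range f) := by
  have h1 : IsProperMap f := by
    rw [isProperMap_iff_tendsto_cocompact]
    refine ⟨hf, ?_⟩
    rw [← Metric.cobounded_eq_cocompact, ← comap_norm_atTop, Filter.tendsto_comap_iff]
    refine Filter.tendsto_atTop_mono (f := fun x : E n => ‖x‖ - C) (fun x => ?_) ?_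
    · have h2 := hC x
      have h3 := norm_sub_norm_le x (x - f x)
      rw [sub_sub_cancel, norm_sub_rev] at h3
      simp only [Function.comp_apply]
      linarith
    · exact Filter.tendsto_atTop_add_const_right _ _ Filter.tendsto_comap
  exact h1.isClosedMap.isClosed_range

theorem surj_of_bdd {f : E n → E n} (hf : Continuous f) (ho : IsOpenMap f) {C : ℝ}
    (hC : ∀ x, ‖f x - x‖ ≤ C) : Function.Surjective f := by
  rw [← Set.range_eq_univ]
  exact IsClopen.eq_univ ⟨closedRange_of_bdd hf hC, ho.isOpen_range⟩ (Set.range_nonempty f)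

/-- In a continuous family of equivariant local diffeomorphisms, all are bijective if the first
one is injective. -/
theorem fam_bijective {h : ℝ × E n → E n} (hs : ContDiff ℝ ∞ h)
    (hp : ∀ s x k, h (s, x + lat k) = h (s, x))
    (h0 : Function.Injective fun x => x + h (0, x))
    (hd : ∀ s ∈ Set.Icc (0 : ℝ) 1, ∀ x, ∃ L : E n ≃L[ℝ] E n,
      HasFDerivAt (fun x => x + h (s, x)) (L : E n →L[ℝ] E n) x) :
    ∀ s ∈ Set.Icc (0 : ℝ) 1, Function.Bijective fun x => x + h (s, x) := by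
  have hsc : Continuous h := hs.continuous
  obtain ⟨C, hC⟩ := exists_bound hsc hp
  set Φ : ℝ × E n → ℝ × E n := fun p => (p.1, p.2 + h p) with hΦ
  have hΦs : ContDiff ℝ ∞ Φ := contDiff_fst.prodMk (contDiff_snd.add hs)
  have hstrict : ∀ s ∈ Set.Icc (0 : ℝ) 1, ∀ x, ∃ T : (ℝ × E n) ≃L[ℝ] (ℝ × E n),
      HasStrictFDerivAt Φ (T : (ℝ × E n) →L[ℝ] (ℝ × E n)) (s, x) := by
    intro s hs' x
    obtain ⟨T, hT⟩ := total_deriv hs (hd s hs' x)
    exact ⟨T, hΦs.contDiffAt.hasStrictFDerivAt' hT (by simp)⟩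
  -- the set of non-injective parameters is closed
  set T : Set (Set.Icc (0 : ℝ) 1) := {s | ¬ Function.Injective fun x => x + h ((s : ℝ), x)} with hT
  have hmem : ∀ s : Set.Icc (0 : ℝ) 1, s ∈ T ↔ ∃ x y : E n, x ∈ cube n ∧
      y ∈ Metric.closedBall 0 (2 * C + 1) ∧ x ≠ y ∧
      x + h ((s : ℝ), x) = y + h ((s : ℝ), y) := by
    intro s
    constructor
    · intro hs'
      obtain ⟨x, y, hxy, hne⟩ : ∃ x y : E n, x + h ((s : ℝ), x) = y + h ((s : ℝ), y) ∧ x ≠ y := by
        have h1 : ¬ Function.Injective fun x => x + h ((s : ℝ), x) := hs'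
        unfold Function.Injective at h1
        push Not at h1
        exact h1
      obtain ⟨k, hk⟩ := exists_red x
      have h2 : x + lat k + h ((s : ℝ), x + lat k) = y + lat k + h ((s : ℝ), y + lat k) := by
        rw [hp, hp, add_right_comm, hxy, add_right_comm]
      refine ⟨x + lat k, y + lat k, hk, ?_, fun h3 => hne (add_right_cancel h3), h2⟩
      rw [mem_closedBall_zero_iff]
      have h3 : y + lat k = h ((s : ℝ), x + lat k) - h ((s : ℝ), y + lat k) + (x + lat k) := by
        rw [← eq_sub_iff_add_eq] at h2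
        rw [eq_sub_iff_add_eq] at h2
        rw [sub_add_eq_add_sub, eq_sub_iff_add_eq, ← h2, add_comm]
      have h4 := hC s s.2 (x + lat k)
      have h5 := hC s s.2 (y + lat k)
      have h6 : ‖x + lat k‖ ≤ 1 := by
        rw [pi_norm_le_iff_of_nonneg zero_le_one]
        intro i
        have h7 := hk i (Set.mem_univ i)
        rw [Real.norm_eq_abs, abs_le]
        exact ⟨by linarith [h7.1], h7.2⟩
      rw [h3]
      refine (norm_add_le _ _).trans ?_
      have h8 := norm_sub_le (h ((s : ℝ), x + lat k)) (h ((s : ℝ), y + lat k))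
      linarith
    · rintro ⟨x, y, -, -, hne, hxy⟩ hinj
      exact hne (hinj hxy)
  have hclosed : IsClosed T := by
    set W : Set (ℝ × E n × E n) :=
      interior {p | p.2.1 + h (p.1, p.2.1) = p.2.2 + h (p.1, p.2.2) → p.2.1 = p.2.2} with hW
    set K : Set (ℝ × E n × E n) := Set.Icc (0 : ℝ) 1 ×ˢ cube n ×ˢ
      Metric.closedBall (0 : E n) (2 * C + 1) with hK
    set Q : Set (ℝ × E n × E n) := {p | p.2.1 + h (p.1, p.2.1) = p.2.2 + h (p.1, p.2.2)} with hQ
    have hQc : IsClosed Q := by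
      refine isClosed_eq ?_ ?_
      · exact (continuous_fst.comp continuous_snd).add
          (hsc.comp (continuous_fst.prodMk (continuous_fst.comp continuous_snd)))
      · exact (continuous_snd.comp continuous_snd).add
          (hsc.comp (continuous_fst.prodMk (continuous_snd.comp continuous_snd)))
    have hKc : IsCompact K := isCompact_Icc.prod (isCompact_cube.prod (isCompact_closedBall _ _))
    have hZ : IsCompact (K ∩ (Q ∩ Wᶜ)) :=
      hKc.inter_right (hQc.inter isOpen_interior.isClosed_compl)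
    have h1 : T = Subtype.val ⁻¹' (Prod.fst '' (K ∩ (Q ∩ Wᶜ))) := by
      ext s
      rw [hmem]
      constructor
      · rintro ⟨x, y, hx, hy, hne, hxy⟩
        refine ⟨((s : ℝ), x, y), ⟨⟨s.2, hx, hy⟩, hxy, fun hw => hne ?_⟩, rfl⟩
        exact interior_subset hw hxy
      · rintro ⟨⟨s', x, y⟩, ⟨⟨hs', hx, hy⟩, hxy, hw⟩, h2⟩
        have h3 : s' = (s : ℝ) := h2
        subst h3
        refine ⟨x, y, hx, hy, ?_, hxy⟩
        rintro rfl
        refine hw ?_
        obtain ⟨T', hT'⟩ := hstrict s s.2 x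
        have h4 := hT'.eventually_left_inverse
        rw [hW, mem_interior_iff_mem_nhds]
        have h5 : Filter.Tendsto (fun p : ℝ × E n × E n => (p.1, p.2.1)) (𝓝 ((s : ℝ), x, x))
            (𝓝 ((s : ℝ), x)) :=
          (continuous_fst.prodMk (continuous_fst.comp continuous_snd)).tendsto _
        have h6 : Filter.Tendsto (fun p : ℝ × E n × E n => (p.1, p.2.2)) (𝓝 ((s : ℝ), x, x))
            (𝓝 ((s : ℝ), x)) :=
          (continuous_fst.prodMk (continuous_snd.comp continuous_snd)).tendsto _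
        filter_upwards [h5.eventually h4, h6.eventually h4] with p hp1 hp2 hpe
        have h7 : Φ (p.1, p.2.1) = Φ (p.1, p.2.2) := by
          show (p.1, p.2.1 + h (p.1, p.2.1)) = (p.1, p.2.2 + h (p.1, p.2.2))
          rw [show p.2.1 + h (p.1, p.2.1) = p.2.2 + h (p.1, p.2.2) from hpe]
        rw [h7, hp2] at hp1
        exact (congrArg Prod.snd hp1).symm
    rw [h1]
    exact (hZ.image continuous_fst).isClosed.preimage continuous_subtype_val
  have hopen : IsOpen T := by
    rw [isOpen_iff_mem_nhds]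
    intro s hs'
    obtain ⟨x, y, -, -, hne, hxy⟩ := (hmem s).1 hs'
    obtain ⟨Ux, Uy, hUx, hUy, hx, hy, hdis⟩ := t2_separation hne
    obtain ⟨T1, hT1⟩ := hstrict s s.2 x
    obtain ⟨T2, hT2⟩ := hstrict s s.2 y
    have h1 : Φ '' (Set.univ ×ˢ Ux) ∈ 𝓝 (Φ ((s : ℝ), x)) := by
      rw [← hT1.map_nhds_eq_of_equiv]
      exact Filter.image_mem_map ((isOpen_univ.prod hUx).mem_nhds ⟨Set.mem_univ _, hx⟩)
    have h2 : Φ '' (Set.univ ×ˢ Uy) ∈ 𝓝 (Φ ((s : ℝ), y)) := by
      rw [← hT2.map_nhds_eq_of_equiv]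
      exact Filter.image_mem_map ((isOpen_univ.prod hUy).mem_nhds ⟨Set.mem_univ _, hy⟩)
    have h3 : Φ ((s : ℝ), y) = Φ ((s : ℝ), x) := by
      show ((s : ℝ), y + h ((s : ℝ), y)) = ((s : ℝ), x + h ((s : ℝ), x))
      rw [hxy]
    rw [h3] at h2
    have h4 : Filter.Tendsto (fun s' : Set.Icc (0 : ℝ) 1 => ((s' : ℝ), x + h ((s : ℝ), x))) (𝓝 s)
        (𝓝 (Φ ((s : ℝ), x))) :=
      (continuous_subtype_val.prodMk continuous_const).tendsto s
    filter_upwards [h4 h1, h4 h2] with s' hs1 hs2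
    obtain ⟨⟨a, x'⟩, ⟨-, hx'⟩, he1⟩ := hs1
    obtain ⟨⟨b, y'⟩, ⟨-, hy'⟩, he2⟩ := hs2
    have ha : a = (s' : ℝ) := congrArg Prod.fst he1
    have hb : b = (s' : ℝ) := congrArg Prod.fst he2
    subst ha
    subst hb
    have h5 : x' + h ((s' : ℝ), x') = y' + h ((s' : ℝ), y') :=
      (congrArg Prod.snd he1).trans (congrArg Prod.snd he2).symm
    intro hinj
    have h6 : x' = y' := hinj h5
    subst h6
    exact (Set.disjoint_left.1 hdis) hx' hy'
  have hempty : T = ∅ := by
    rcases isClopen_iff.1 (⟨hclosed, hopen⟩ : IsClopen T) with h1 | h1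
    · exact h1
    · exfalso
      have h2 : (⟨0, by simp⟩ : Set.Icc (0 : ℝ) 1) ∈ T := h1 ▸ Set.mem_univ _
      exact h2 h0
  intro s hs'
  constructor
  · by_contra h1
    have h2 : (⟨s, hs'⟩ : Set.Icc (0 : ℝ) 1) ∈ T := h1
    rw [hempty] at h2
    exact h2
  · have h1 : ContDiff ℝ ∞ (fun x : E n => x + h (s, x)) :=
      contDiff_id.add (hs.comp (contDiff_const.prodMk contDiff_id))
    refine surj_of_bdd h1.continuous (isOpenMap_of_deriv h1 (hd s hs')) (C := C) fun x => ?_
    rw [add_sub_cancel_left]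
    exact hC s hs' x

end Pool.Agent.Helper80.SI
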