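import Pool.Agent.Helper80.SI.Crit

/-!
# SI: twist maps

`A = [a b; c d]` is an integral symplectic matrix with `det b ≠ 0`, `β x` is the upper right block of
the derivative of `F`. If `det (β x + r b) ≠ 0` for all `x` and `r ≥ 0` then `F` is isotopic to `A`.
-/

set_option autoImplicit false

open Matrix
open scoped ContDiff

namespace Pool.Agent.Helper80.SI

variable {n : ℕ} {A : Matrix (Fin n ⊕ Fin n) (Fin n ⊕ Fin n) ℤ} {F : E n → E n}

theorem re_mem (hA : A ∈ symplecticGroup (Fin n) ℤ) : re A ∈ symplecticGroup (Fin n) ℝ := by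
  exact SymplecticGroup.map_mem hA (Int.castRingHom ℝ)

theorem re_mulVec (k : Fin n ⊕ Fin n → ℤ) : (re A).mulVec (lat k) = lat (A.mulVec k) := by
  funext i
  unfold re lat Matrix.mulVec dotProduct
  push_cast
  rfl

theorem DD_lin (x : E n) : DD (lin A) x = re A := by
  refine DD_eq ?_
  exact (LinearMap.toContinuousLinearMap (Matrix.toLin' (re A)) : E n →L[ℝ] E n).hasFDerivAt

theorem sympLift_lin (hA : A ∈ symplecticGroup (Fin n) ℤ) : SympLift n A (lin A) := by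
  have hA' := re_mem hA
  have hu : IsUnit (re A).det := SymplecticGroup.symplectic_det hA'
  have hs : ∀ M : Mt n, ContDiff ℝ ∞ (fun x : E n => M.mulVec x) := fun M =>
    (LinearMap.toContinuousLinearMap (Matrix.toLin' M) : E n →L[ℝ] E n).contDiff
  refine ⟨SymplecticGroup.symplectic_det hA, hs _, ⟨fun x => (re A)⁻¹.mulVec x, hs _, ?_, ?_⟩,
    ?_, ?_⟩
  · intro x
    show (re A)⁻¹.mulVec ((re A).mulVec x) = x
    rw [mulVec_mulVec, nonsing_inv_mul _ hu, one_mulVec]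
  · intro x
    show (re A).mulVec ((re A)⁻¹.mulVec x) = x
    rw [mulVec_mulVec, mul_nonsing_inv _ hu, one_mulVec]
  · intro x k
    show (re A).mulVec (x + lat k) = (re A).mulVec x + lat (A.mulVec k)
    rw [mulVec_add, re_mulVec]
  · intro x
    rw [DD_lin]
    exact hA'

/-- Twist maps. -/
theorem crit_twist (hA : A ∈ symplecticGroup (Fin n) ℤ) (hF : SympLift n A F)
    (hb : (re A).toBlocks₁₂.det ≠ 0)
    (h : ∀ x, ∀ r : ℝ, 0 ≤ r → ((DD F x).toBlocks₁₂ + r • (re A).toBlocks₁₂).det ≠ 0) :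
    Isotopic n A F (lin A) := by
  have hG := sympLift_lin hA
  have hA' := re_mem hA
  have hAu : IsUnit (re A).det := SymplecticGroup.symplectic_det hA'
  obtain ⟨a, b, c, d, hM⟩ : ∃ a b c d : Matrix (Fin n) (Fin n) ℝ, re A = fromBlocks a b c d :=
    ⟨_, _, _, _, (fromBlocks_toBlocks (re A)).symm⟩
  rw [hM, toBlocks_fromBlocks₁₂] at hb h
  rw [hM, SymplecticGroup.fromBlocks_mem_iff] at hA'
  have hbu : IsUnit b.det := isUnit_iff_ne_zero.2 hb
  have hbb : b * b⁻¹ = 1 := mul_nonsing_inv _ hbu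
  have hbt : (b⁻¹)ᵀ * bᵀ = 1 := by rw [← transpose_mul, hbb, transpose_one]
  have hsym : (d * b⁻¹)ᵀ = d * b⁻¹ := by
    rw [transpose_mul]
    calc (b⁻¹)ᵀ * dᵀ = (b⁻¹)ᵀ * (dᵀ * b) * b⁻¹ := by
          rw [mul_assoc, mul_assoc, hbb, mul_one]
      _ = ((b⁻¹)ᵀ * bᵀ) * (d * b⁻¹) := by rw [← hA'.2.1]; noncomm_ring
      _ = d * b⁻¹ := by rw [hbt, one_mul]
  set P : Mt n := fromBlocks 1 0 (-(d * b⁻¹)) 1 with hPdef
  have hP : P ∈ symplecticGroup (Fin n) ℝ := by
    rw [hPdef, SymplecticGroup.fromBlocks_mem_iff]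
    refine ⟨?_, ?_, ?_⟩
    · rw [transpose_one, one_mul, transpose_neg, hsym, mul_one]
    · simp
    · simp
  have hPu : IsUnit P.det := SymplecticGroup.symplectic_det hP
  set K : Mt n := fromBlocks 0 0 b⁻¹ 0 with hK
  set T : Mt n := fromBlocks 1 0 0 0 with hT
  have hPAK : P * (re A * K) = T := by
    rw [hM, hK, fromBlocks_multiply, hPdef, fromBlocks_multiply, hT]
    simp only [mul_zero, zero_mul, add_zero, zero_add, one_mul, hbb, mul_one, neg_add_cancel]
  have hKT : (re A)⁻¹ * (P⁻¹ * T) = K := by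
    rw [← hPAK, ← mul_assoc P⁻¹, nonsing_inv_mul _ hPu, one_mul, ← mul_assoc,
      nonsing_inv_mul _ hAu, one_mul]
  refine crit_block hP hF hG fun x r hr => ?_
  rw [DD_lin]
  obtain ⟨a', b', c', d', hM'⟩ : ∃ a b c d : Matrix (Fin n) (Fin n) ℝ,
      DD F x = fromBlocks a b c d := ⟨_, _, _, _, (fromBlocks_toBlocks (DD F x)).symm⟩
  have h1 : (P * (DD F x * (re A)⁻¹) * P⁻¹).toBlocks₁₁ = b' * b⁻¹ := by
    have h2 : ∀ M : Mt n, (M * T).toBlocks₁₁ = M.toBlocks₁₁ := by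
      intro M
      have h3 : M = fromBlocks M.toBlocks₁₁ M.toBlocks₁₂ M.toBlocks₂₁ M.toBlocks₂₂ :=
        (fromBlocks_toBlocks M).symm
      rw [h3, hT, fromBlocks_multiply, toBlocks_fromBlocks₁₁, toBlocks_fromBlocks₁₁, mul_one,
        mul_zero, add_zero]
    have h4 : P * (DD F x * (re A)⁻¹) * P⁻¹ * T = P * (DD F x * K) := by
      rw [← hKT]
      noncomm_ring
    rw [← h2, h4, hM', hK, fromBlocks_multiply, hPdef, fromBlocks_multiply,
      toBlocks_fromBlocks₁₁]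
    simp only [mul_zero, zero_mul, add_zero, zero_add, one_mul]
  have h5 := h x r hr
  rw [hM', toBlocks_fromBlocks₁₂] at h5
  have h6 : b' * b⁻¹ + r • (1 : Matrix (Fin n) (Fin n) ℝ) = (b' + r • b) * b⁻¹ := by
    rw [add_mul, smul_mul_assoc, hbb]
  rw [h1, h6, det_mul, det_nonsing_inv]
  exact mul_ne_zero h5 hbu.ringInverse.ne_zero

end Pool.Agent.Helper80.SI
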