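import Pool.Agent.Helper80.SI.Chain
import Pool.Agent.Helper80.SI.Twist

/-!
# SI: the equivalence
-/

set_option autoImplicit false

namespace Pool.Agent.Helper80.SI

variable {n : ℕ} {A : Matrix (Fin n ⊕ Fin n) (Fin n ⊕ Fin n) ℤ} {F G : E n → E n}

theorem Step.isotopic (h : Step n A F G) : Isotopic n A F G := by
  cases h with
  | path hF hG W m hW h => exact pair hW hF hG h
  | spec hF hG h => exact crit_spec hF hG h
  | block hF hG P hP h => exact crit_block hP hF hG h
  | metric hF hG Q U hQ hU hO h => exact near_isotopic hQ hU hO hF hG h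
  | twist hF hA hb h => exact crit_twist hA hF hb h

theorem Close.step (h : Close n A 2 F G) : Step n A F G := by
  obtain ⟨hF, hG, h⟩ := h
  refine Step.metric hF hG 1 1 (one_mem _) (one_mem _) (by simp) fun x v hv => ?_
  rw [one_mul, inv_one, mul_one]
  refine lt_of_lt_of_eq (h x v hv) ?_
  norm_num

theorem isotopic_of_steps (h : Relation.TransGen (Step n A) F G) : Isotopic n A F G := by
  induction h with
  | single h => exact h.isotopic
  | tail _ h ih => exact ih.trans h.isotopic

theorem main (n : ℕ) (A : Matrix (Fin n ⊕ Fin n) (Fin n ⊕ Fin n) ℤ) (F G : E n → E n) :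
    List.TFAE [Isotopic n A F G, Relation.TransGen (Step n A) F G,
      ∀ ε : ℝ, 0 < ε → Relation.TransGen (Close n A ε) F G] := by
  tfae_have 1 → 3 := fun h ε hε => chain_of_isotopic hε h
  tfae_have 3 → 2 := fun h =>
    Relation.TransGen.mono (p := Step n A) (fun _ _ h => Close.step h) F G (h 2 two_pos)
  tfae_have 2 → 1 := isotopic_of_steps
  tfae_finish

end Pool.Agent.Helper80.SI
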