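import Mathlib

/-!
# SI: smooth inverses of bijections with invertible derivative
-/

set_option autoImplicit false

open scoped ContDiff Topology

namespace Pool.Agent.Helper80.SI

variable {X : Type} [NormedAddCommGroup X] [NormedSpace ℝ X] [CompleteSpace X]

/-- A smooth map with invertible derivatives is open. -/
theorem isOpenMap_of_deriv {f : X → X} (hf : ContDiff ℝ ∞ f)
    (hd : ∀ a, ∃ L : X ≃L[ℝ] X, HasFDerivAt f (L : X →L[ℝ] X) a) : IsOpenMap f := by
  refine IsOpenMap.of_nhds_le fun a => ?_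
  obtain ⟨L, hL⟩ := hd a
  have h1 : HasStrictFDerivAt f (L : X →L[ℝ] X) a := hf.contDiffAt.hasStrictFDerivAt' hL (by simp)
  rw [h1.map_nhds_eq_of_equiv]

/-- A smooth bijection with invertible derivatives has a smooth inverse. -/
theorem smooth_inverse {f : X → X} (hf : ContDiff ℝ ∞ f) (hb : Function.Bijective f)
    (hd : ∀ a, ∃ L : X ≃L[ℝ] X, HasFDerivAt f (L : X →L[ℝ] X) a) :
    ∃ g : X → X, ContDiff ℝ ∞ g ∧ Function.LeftInverse g f ∧ Function.RightInverse g f := by
  choose L hL using hd
  let e : X ≃ X := Equiv.ofBijective f hb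
  let h : X ≃ₜ X := e.toHomeomorphOfContinuousOpen hf.continuous
    (isOpenMap_of_deriv hf fun a => ⟨L a, hL a⟩)
  refine ⟨h.symm, h.contDiff_symm (f₀' := L) hL hf, fun x => h.symm_apply_apply x,
    fun x => h.apply_symm_apply x⟩

end Pool.Agent.Helper80.SI
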