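import Pool.Agent.Helper80.SI.Norm

/-!
# SI: unitary matrices without the eigenvalue `-1` are dense
-/

set_option autoImplicit false

open Matrix

namespace Pool.Agent.Helper80.SI

variable {n : ℕ}

/-- Unitary matrices commute with `J`. -/
theorem J_comm {U : Mt n} (hU : U ∈ symplecticGroup (Fin n) ℝ) (hO : Uᵀ * U = 1) :
    J (Fin n) ℝ * U = U * J (Fin n) ℝ := by
  have h1 : Uᵀ * J (Fin n) ℝ * U = J (Fin n) ℝ := SymplecticGroup.mem_iff'.1 hU
  have h2 : U * Uᵀ = 1 := mul_eq_one_comm.1 hO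
  calc J (Fin n) ℝ * U = (U * Uᵀ) * (J (Fin n) ℝ * U) := by rw [h2, one_mul]
    _ = U * (Uᵀ * J (Fin n) ℝ * U) := by noncomm_ring
    _ = U * J (Fin n) ℝ := by rw [h1]

theorem orth_mulVec {U : Mt n} (hO : Uᵀ * U = 1) (x : E n) : Uᵀ.mulVec (U.mulVec x) = x := by
  rw [mulVec_mulVec, hO, one_mulVec]

theorem perturb {U : Mt n} (hU : U ∈ symplecticGroup (Fin n) ℝ) (hO : Uᵀ * U = 1) {ε : ℝ}
    (hε : 0 < ε) : ∃ V : Mt n, V ∈ symplecticGroup (Fin n) ℝ ∧ Vᵀ * V = 1 ∧ (1 + V).det ≠ 0 ∧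
      ∀ v, sq ((V - U).mulVec v) ≤ ε * sq v := by
  have hJ2 : J (Fin n) ℝ * J (Fin n) ℝ = -1 := J_squared (Fin n) ℝ
  have hJt : (J (Fin n) ℝ)ᵀ = -J (Fin n) ℝ := J_transpose (Fin n) ℝ
  have hJU := J_comm hU hO
  -- the choice of `c`
  obtain ⟨c, ⟨hc1, hc2⟩, hc3⟩ : ∃ c ∈ Set.Ioo (max 0 (1 - ε / 2)) 1,
      (-2 * c) ∉ {y : ℝ | (U + Uᵀ).charpoly.IsRoot y} := by
    have hfin : {y : ℝ | (U + Uᵀ).charpoly.IsRoot y}.Finite :=
      Polynomial.finite_setOfPred_isRoot (charpoly_monic _).ne_zero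
    have hinf : ((fun c : ℝ => -2 * c) '' Set.Ioo (max 0 (1 - ε / 2)) 1).Infinite := by
      refine Set.Infinite.image ?_ (Set.Ioo_infinite (max_lt one_pos (by linarith)))
      intro a _ b _ hab
      have : -2 * a = -2 * b := hab
      linarith
    obtain ⟨y, ⟨c, hc, rfl⟩, hy⟩ := hinf.exists_notMem_finite hfin
    exact ⟨c, hc, hy⟩
  have hc0 : 0 < c := lt_of_le_of_lt (le_max_left _ _) hc1
  have hcε : 1 - ε / 2 < c := lt_of_le_of_lt (le_max_right _ _) hc1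
  obtain ⟨s, hs⟩ : ∃ s : ℝ, c ^ 2 + s ^ 2 = 1 := by
    refine ⟨Real.sqrt (1 - c ^ 2), ?_⟩
    rw [Real.sq_sqrt (by nlinarith)]
    ring
  set K : Mt n := c • 1 + s • J (Fin n) ℝ with hK
  have hKt : Kᵀ = c • 1 - s • J (Fin n) ℝ := by
    rw [hK, transpose_add, transpose_smul, transpose_smul, transpose_one, hJt, smul_neg,
      sub_eq_add_neg]
  have hKK : Kᵀ * K = 1 := by
    rw [hKt, hK, sub_mul, mul_add, mul_add, smul_mul_smul_comm, smul_mul_smul_comm,
      smul_mul_smul_comm, smul_mul_smul_comm, one_mul, one_mul, mul_one, hJ2]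
    have h1 : (c * c) • (1 : Mt n) + (c * s) • J (Fin n) ℝ -
        ((s * c) • J (Fin n) ℝ + (s * s) • (-1 : Mt n)) = (c ^ 2 + s ^ 2) • (1 : Mt n) := by
      module
    rw [h1, hs, one_smul]
  have hKJ : K * J (Fin n) ℝ = J (Fin n) ℝ * K := by
    rw [hK, add_mul, mul_add, smul_mul_assoc, smul_mul_assoc, mul_smul_comm, mul_smul_comm,
      one_mul, mul_one]
  have hKU : K * U = U * K := by
    rw [hK, add_mul, mul_add, smul_mul_assoc, smul_mul_assoc, mul_smul_comm, mul_smul_comm,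
      one_mul, mul_one, hJU]
  refine ⟨K * U, mul_mem ?_ hU, ?_, ?_, fun v => ?_⟩
  · rw [SymplecticGroup.mem_iff', mul_assoc, ← hKJ, ← mul_assoc, hKK, one_mul]
  · rw [transpose_mul, mul_assoc, ← mul_assoc Kᵀ, hKK, one_mul, hO]
  · intro h0
    obtain ⟨x, hx, hx0⟩ := exists_mulVec_eq_zero_iff.2 h0
    -- `(1 + K U) x = 0`
    have h1 : U.mulVec x = -Kᵀ.mulVec x := by
      have h2 : Kᵀ.mulVec ((1 + K * U).mulVec x) = 0 := by rw [hx0, mulVec_zero]
      rw [mulVec_mulVec, mul_add, mul_one, ← mul_assoc, hKK, one_mul, add_mulVec] at h2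
      exact eq_neg_of_add_eq_zero_right h2
    have h3 : Uᵀ.mulVec x = -K.mulVec x := by
      have h4 : K.mulVec (U.mulVec x) = -x := by
        rw [add_mulVec, one_mulVec, ← mulVec_mulVec] at hx0
        exact eq_neg_of_add_eq_zero_right hx0
      have h5 : Uᵀ.mulVec (K.mulVec (U.mulVec x)) = K.mulVec x := by
        rw [mulVec_mulVec, mulVec_mulVec, mul_assoc, hKU, ← mul_assoc, hO, one_mul]
      rw [h4, mulVec_neg] at h5
      rw [← h5, neg_neg]
    have h6 : (U + Uᵀ).mulVec x = (-2 * c) • x := by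
      rw [add_mulVec, h1, h3, hKt, hK, sub_mulVec, add_mulVec, smul_mulVec, smul_mulVec,
        one_mulVec]
      module
    apply hc3
    show (U + Uᵀ).charpoly.IsRoot (-2 * c)
    rw [Polynomial.IsRoot.def, eval_charpoly]
    refine exists_mulVec_eq_zero_iff.1 ⟨x, hx, ?_⟩
    rw [sub_mulVec, h6, scalar_apply, ← smul_one_eq_diagonal, smul_mulVec, one_mulVec, sub_self]
  · have h1 : (K * U - U).mulVec v = (c - 1) • U.mulVec v + s • (J (Fin n) ℝ).mulVec (U.mulVec v) := by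
      rw [sub_mulVec, ← mulVec_mulVec, hK, add_mulVec, smul_mulVec, smul_mulVec, one_mulVec]
      module
    have h2 : U.mulVec v ⬝ᵥ (J (Fin n) ℝ).mulVec (U.mulVec v) = 0 := by
      have h3 : U.mulVec v ⬝ᵥ (J (Fin n) ℝ).mulVec (U.mulVec v) =
          -(U.mulVec v ⬝ᵥ (J (Fin n) ℝ).mulVec (U.mulVec v)) := by
        conv_lhs => rw [dotProduct_mulVec, ← mulVec_transpose, hJt, neg_mulVec, neg_dotProduct,
          dotProduct_comm]
      linarith
    have hJO : (J (Fin n) ℝ)ᵀ * J (Fin n) ℝ = 1 := by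
      rw [hJt, neg_mul, hJ2, neg_neg]
    rw [h1, sq_add, sq_smul, sq_smul, smul_dotProduct, dotProduct_smul, h2, sq_orth hJO,
      sq_orth hO, smul_zero, smul_zero, mul_zero, add_zero]
    have h3 := sq_nonneg' v
    have h4 : (c - 1) ^ 2 * sq v + s ^ 2 * sq v = (2 - 2 * c) * sq v := by
      have : s ^ 2 = 1 - c ^ 2 := by linarith
      rw [this]
      ring
    rw [h4]
    exact mul_le_mul_of_nonneg_right (by linarith) h3

end Pool.Agent.Helper80.SI
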