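import Pool.Agent.Helper80.SI.Cont
import Pool.Agent.Helper80.SI.Perturb
import Pool.Agent.Helper80.SI.Crit

/-!
# SI: the metric criterion
-/

set_option autoImplicit false

open scoped ContDiff Topology
open Matrix

namespace Pool.Agent.Helper80.SI

variable {n : ℕ} {A : Matrix (Fin n ⊕ Fin n) (Fin n ⊕ Fin n) ℤ} {F G : E n → E n}

theorem continuous_inv_DD (hG : SympLift n A G) : Continuous (fun x => (DD G x)⁻¹) := by
  have h1 : (fun x => (DD G x)⁻¹) = fun x => -J (Fin n) ℝ * (DD G x)ᵀ * J (Fin n) ℝ := funext fun x =>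
    SymplecticGroup.inv_eq_symplectic_inv _ (hG.symp x)
  rw [h1]
  exact (continuous_const.matrix_mul (continuous_DD' hG.smooth).matrix_transpose).matrix_mul
    continuous_const

/-- Part (2). -/
theorem near_isotopic {Q U : Mt n} (hQ : Q ∈ symplecticGroup (Fin n) ℝ)
    (hU : U ∈ symplecticGroup (Fin n) ℝ) (hO : Uᵀ * U = 1)
    (hF : SympLift n A F) (hG : SympLift n A G)
    (h : ∀ x v, v ≠ 0 → sq ((Q * (DD F x * (DD G x)⁻¹) * Q⁻¹ - U).mulVec v) < 4 * sq v) :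
    Isotopic n A F G := by
  have hQu : IsUnit Q.det := SymplecticGroup.symplectic_det hQ
  have hQi : Q⁻¹ ∈ symplecticGroup (Fin n) ℝ := by
    rw [← SymplecticGroup.coe_inv' ⟨Q, hQ⟩]
    exact Subtype.coe_prop _
  have hCc : Continuous (fun x => Q * (DD F x * (DD G x)⁻¹) * Q⁻¹ - U) := by
    refine Continuous.sub ?_ continuous_const
    exact (continuous_const.matrix_mul ((continuous_DD' hF.smooth).matrix_mul
      (continuous_inv_DD hG))).matrix_mul continuous_const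
  obtain ⟨m, hm0, hm4, hm⟩ := exists_uniform hCc (fun x k => by
    show Q * (DD F (x + lat k) * (DD G (x + lat k))⁻¹) * Q⁻¹ - U =
      Q * (DD F x * (DD G x)⁻¹) * Q⁻¹ - U
    rw [DD_per hF, DD_per hG]) h
  set η : ℝ := (4 - m) / 8 with hη
  have hη0 : 0 < η := by rw [hη]; linarith
  set ε : ℝ := (4 - m) / (4 * (1 + 1 / η)) with hε
  have h1η : 0 < 1 + 1 / η := by positivity
  have hε0 : 0 < ε := by rw [hε]; exact div_pos (by linarith) (by positivity)
  have hεη : (1 + 1 / η) * ε = (4 - m) / 4 := by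
    rw [hε]
    field_simp
  obtain ⟨V, hV, hVO, hV1, hVU⟩ := perturb hU hO hε0
  have hnear : ∀ x v, v ≠ 0 → sq ((Q * (DD F x * (DD G x)⁻¹) * Q⁻¹ - V).mulVec v) < 4 * sq v := by
    intro x v hv
    have h1 : (Q * (DD F x * (DD G x)⁻¹) * Q⁻¹ - V).mulVec v =
        (Q * (DD F x * (DD G x)⁻¹) * Q⁻¹ - U).mulVec v + -((V - U).mulVec v) := by
      rw [sub_mulVec, sub_mulVec, sub_mulVec]
      abel
    rw [h1]
    refine lt_of_le_of_lt (sq_add_le _ _ hη0) ?_
    rw [sq_neg]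
    have h2 := hm x v
    have h3 := hVU v
    have h4 := sq_pos hv
    have h5 : (1 + η) * sq ((Q * (DD F x * (DD G x)⁻¹) * Q⁻¹ - U).mulVec v) ≤
        (1 + η) * (m * sq v) := mul_le_mul_of_nonneg_left h2 (by positivity)
    have h6 : (1 + 1 / η) * sq ((V - U).mulVec v) ≤ (1 + 1 / η) * (ε * sq v) :=
      mul_le_mul_of_nonneg_left h3 h1η.le
    rw [← mul_assoc (1 + 1 / η), hεη] at h6
    have h7 : (1 + η) * m + (4 - m) / 4 < 4 := by
      have : η * m ≤ η * 4 := mul_le_mul_of_nonneg_left hm4.le hη0.le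
      rw [add_mul, one_mul]
      have h8 : η * 4 = (4 - m) / 2 := by rw [hη]; ring
      linarith
    nlinarith
  have hconj : ∀ M : Mt n, (Q⁻¹ * M * Q).det = M.det := by
    intro M
    rw [det_mul, det_mul, mul_comm, ← mul_assoc, ← det_mul, mul_nonsing_inv _ hQu, det_one, one_mul]
  have hQQ : Q⁻¹ * Q = 1 := nonsing_inv_mul _ hQu
  refine crit_U (U := Q⁻¹ * V * Q) (mul_mem (mul_mem hQi hV) hQ) ?_ hF hG fun x t ht => ?_
  · have h1 : 1 + Q⁻¹ * V * Q = Q⁻¹ * (1 + V) * Q := by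
      rw [mul_add, add_mul, mul_one, hQQ]
    rw [h1, hconj]
    exact hV1
  · have h1 : DD F x * (DD G x)⁻¹ + Q⁻¹ * V * Q + t • (1 + Q⁻¹ * V * Q) =
        Q⁻¹ * (Q * (DD F x * (DD G x)⁻¹) * Q⁻¹ + V + t • (1 + V)) * Q := by
      have h2 : Q⁻¹ * (Q * (DD F x * (DD G x)⁻¹) * Q⁻¹) * Q = DD F x * (DD G x)⁻¹ := by
        calc Q⁻¹ * (Q * (DD F x * (DD G x)⁻¹) * Q⁻¹) * Q
            = (Q⁻¹ * Q) * (DD F x * (DD G x)⁻¹) * (Q⁻¹ * Q) := by noncomm_ring
          _ = DD F x * (DD G x)⁻¹ := by rw [hQQ, one_mul, mul_one]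
      rw [mul_add, mul_add, add_mul, add_mul, h2, mul_smul_comm, smul_mul_assoc, mul_add, add_mul,
        mul_one, hQQ]
    rw [h1, hconj]
    exact det_ne_zero_of_near hVO (hnear x) ht

end Pool.Agent.Helper80.SI
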