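import Pool.Agent.Helper80.SI.Core

/-!
# SI: pairs of symplectomorphisms, concatenation
-/

set_option autoImplicit false

open scoped ContDiff Topology

namespace Pool.Agent.Helper80.SI

variable {n : ℕ} {A : Matrix (Fin n ⊕ Fin n) (Fin n ⊕ Fin n) ℤ} {F G H : E n → E n}

theorem Isotopic.left (h : Isotopic n A F G) : SympLift n A F := by
  obtain ⟨P, -, h0, -, h1⟩ := h
  rw [← h0]
  exact h1 0 ⟨le_rfl, zero_le_one⟩

theorem Isotopic.right (h : Isotopic n A F G) : SympLift n A G := by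
  obtain ⟨P, -, -, h0, h1⟩ := h
  rw [← h0]
  exact h1 1 ⟨zero_le_one, le_rfl⟩

theorem Isotopic.trans (h : Isotopic n A F G) (h' : Isotopic n A G H) : Isotopic n A F H := by
  obtain ⟨K, hK, hl, hr, -⟩ := h.right.exists_inv
  have hA : A * A⁻¹ * A = A := by
    rw [Matrix.mul_nonsing_inv _ h.right.unit, one_mul]
  obtain ⟨P, hP, hP0, hP1, hPS⟩ := h
  obtain ⟨Q, hQ, hQ0, hQ1, hQS⟩ := h'
  refine ⟨fun t x => Q t (K (P t x)), ?_, ?_, ?_, fun t ht => ?_⟩
  · exact hQ.comp (contDiff_fst.prodMk (hK.smooth.comp hP))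
  · funext x
    show Q 0 (K (P 0 x)) = F x
    rw [hQ0, hP0, hr]
  · funext x
    show Q 1 (K (P 1 x)) = H x
    rw [hQ1, hP1, hl]
  · have h1 := ((hQS t ht).comp hK).comp (hPS t ht)
    rw [hA] at h1
    exact h1

/-- Part (1). -/
theorem pair {W : ℝ → Mt n} {m : ℝ → ℝ} (hWm : ConfPath n W m)
    (hF : SympLift n A F) (hG : SympLift n A G)
    (h : ∀ s ∈ Set.Icc (0 : ℝ) 1, ∀ x, (1 + W s * (DD F x * (DD G x)⁻¹ - 1)).det ≠ 0) :
    Isotopic n A F G := by
  obtain ⟨K, hK, hl, hr, hDK⟩ := hG.exists_inv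
  have h1 : SympLift n 1 (fun x => F (K x)) := by
    have h2 := hF.comp hK
    rwa [Matrix.mul_nonsing_inv _ hF.unit] at h2
  have h2 : ∀ x, DD (fun x => F (K x)) (G x) = DD F x * (DD G x)⁻¹ := by
    intro x
    rw [DD_comp (hF.diff _) (hK.diff _), hl, hDK]
  obtain ⟨P, hP, hP0, hP1, hPS⟩ := core hWm h1 fun s hs y => by
    have h3 := h s hs (K y)
    rw [← h2, hr] at h3
    exact h3
  refine ⟨fun t x => P t (G x), ?_, ?_, ?_, fun t ht => ?_⟩
  · exact hP.comp (contDiff_fst.prodMk (hG.smooth.comp contDiff_snd))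
  · funext x
    show P 0 (G x) = F x
    rw [hP0]
    show F (K (G x)) = F x
    rw [hl]
  · funext x
    show P 1 (G x) = G x
    rw [hP1]
  · have h3 := (hPS t ht).comp hG
    rw [one_mul] at h3
    exact h3

/-- The straight path. -/
theorem straight {R : Mt n}
    (hR : Matrix.J (Fin n) ℝ * R + R.transpose * Matrix.J (Fin n) ℝ = Matrix.J (Fin n) ℝ)
    (hF : SympLift n A F) (hG : SympLift n A G)
    (h : ∀ s ∈ Set.Ioc (0 : ℝ) 1, ∀ x, (1 + s • (R * (DD F x * (DD G x)⁻¹ - 1))).det ≠ 0) :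
    Isotopic n A F G := by
  refine pair (W := fun s => s • R) (m := fun s => s) ⟨fun i j => ?_, contDiff_id, ?_, rfl, rfl,
    fun s _ => ?_⟩ hF hG fun s hs x => ?_
  · exact contDiff_id.mul contDiff_const
  · exact zero_smul _ _
  · rw [mul_smul_comm, Matrix.transpose_smul, smul_mul_assoc, ← smul_add, hR]
  · rcases eq_or_lt_of_le hs.1 with h0 | h0
    · subst h0
      simp only [zero_smul, zero_mul, add_zero, Matrix.det_one]
      exact one_ne_zero
    · have h1 := h s ⟨h0, hs.2⟩ x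
      rwa [← smul_mul_assoc] at h1

end Pool.Agent.Helper80.SI
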